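import Pool.Agent.Lib.MP_65f174_lc.Mg.G002

set_option autoImplicit false

/-!
# Countable relatively algebraically closed subfields with pure value group
-/

namespace Pool.Agent.Lib.MP_65f174_lc.AKE

universe u

open Polynomial

section

variable (E : VF.{u})

/-- elements algebraic over the subfield generated by `B` -/
def algC (B : Set E.K) : Set E.K := {x | IsAlgebraic (Subfield.closure B) x}

open Classical in
/-- an element whose value is the value of `b` divided by `k` -/
noncomputable def dv (b : E.K) (k : ℤ) : E.K :=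
  if h : ∃ z, z ≠ 0 ∧ k • E.vG z = E.vG b then h.choose else 0

/-- one step of the closure -/
noncomputable def stp (B : Set E.K) : Set E.K :=
  algC E B ∪ (fun p : E.K × ℤ => dv E p.1 p.2) '' (B ×ˢ Set.univ)

variable {E}

lemma closure_sub_algC {B : Set E.K} {x : E.K} (hx : x ∈ Subfield.closure B) : x ∈ algC E B :=
  isAlgebraic_algebraMap (A := E.K) (⟨x, hx⟩ : Subfield.closure B)

lemma sub_algC (B : Set E.K) : B ⊆ algC E B := fun _ hx =>
  closure_sub_algC (Subfield.subset_closure hx)

lemma sub_stp (B : Set E.K) : B ⊆ stp E B := fun _ hx => Or.inl (sub_algC B hx)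

lemma algC_countable {B : Set E.K} (hB : B.Countable) : (algC E B).Countable := by
  have : Countable (Subfield.closure B) := by
    have h1 := Subfield.cardinalMk_closure_le_max B
    have h2 : Cardinal.mk B ≤ Cardinal.aleph0 := Cardinal.le_aleph0_iff_set_countable.mpr hB
    rw [max_eq_right h2] at h1
    exact Cardinal.mk_le_aleph0_iff.mp h1
  exact Algebraic.countable (Subfield.closure B) E.K

lemma stp_countable {B : Set E.K} (hB : B.Countable) : (stp E B).Countable :=
  (algC_countable hB).union ((hB.prod Set.countable_univ).image _)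

lemma stp_div {B : Set E.K} {x : E.K} (hx : x ∈ B) {k : ℤ} (hk : k ≠ 0) {δ : E.G}
    (h : E.vG x = k • δ) : ∃ z ∈ stp E B, z ≠ 0 ∧ E.vG z = δ := by
  obtain ⟨z, hz0, hz⟩ := E.vG_surj δ
  have hex : ∃ z, z ≠ 0 ∧ k • E.vG z = E.vG x := ⟨z, hz0, by rw [hz, h]⟩
  refine ⟨dv E x k, Or.inr ⟨(x, k), ⟨hx, Set.mem_univ _⟩, rfl⟩, ?_, ?_⟩
  · unfold dv
    rw [dif_pos hex]
    exact hex.choose_spec.1
  · have h1 : k • E.vG (dv E x k) = k • δ := by
      unfold dv
      rw [dif_pos hex, ← h]
      exact hex.choose_spec.2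
    exact zsmul_right_injective hk h1

/-- the chain of steps -/
noncomputable def chn (B : Set E.K) (n : ℕ) : Set E.K := (stp E)^[n] B

lemma chn_succ (B : Set E.K) (n : ℕ) : chn B (n + 1) = stp E (chn B n) := by
  unfold chn
  rw [Function.iterate_succ_apply']

lemma chn_mono (B : Set E.K) {n m : ℕ} (h : n ≤ m) : chn B n ⊆ chn B m := by
  induction h with
  | refl => exact subset_rfl
  | step _ ih =>
    rw [chn_succ]
    exact ih.trans (sub_stp _)

lemma chn_countable {B : Set E.K} (hB : B.Countable) (n : ℕ) : (chn B n).Countable := by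
  induction n with
  | zero => exact hB
  | succ n ih => rw [chn_succ]; exact stp_countable ih

lemma chn_closure {B : Set E.K} {n : ℕ} {x : E.K} (hx : x ∈ Subfield.closure (chn B n)) :
    x ∈ chn B (n + 1) := by
  rw [chn_succ]
  exact Or.inl (closure_sub_algC hx)

/-- the union of the chain -/
noncomputable def chnF (B : Set E.K) : Subfield E.K where
  carrier := ⋃ n, chn B n
  mul_mem' := by
    rintro x y hx hy
    rw [Set.mem_iUnion] at hx hy ⊢
    obtain ⟨n, hn⟩ := hx
    obtain ⟨m, hm⟩ := hy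
    exact ⟨max n m + 1, chn_closure (mul_mem
      (Subfield.subset_closure (chn_mono B (le_max_left n m) hn))
      (Subfield.subset_closure (chn_mono B (le_max_right n m) hm)))⟩
  one_mem' := by
    rw [Set.mem_iUnion]
    exact ⟨1, chn_closure (one_mem _)⟩
  add_mem' := by
    rintro x y hx hy
    rw [Set.mem_iUnion] at hx hy ⊢
    obtain ⟨n, hn⟩ := hx
    obtain ⟨m, hm⟩ := hy
    exact ⟨max n m + 1, chn_closure (add_mem
      (Subfield.subset_closure (chn_mono B (le_max_left n m) hn))
      (Subfield.subset_closure (chn_mono B (le_max_right n m) hm)))⟩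
  zero_mem' := by
    rw [Set.mem_iUnion]
    exact ⟨1, chn_closure (zero_mem _)⟩
  neg_mem' := by
    rintro x hx
    rw [Set.mem_iUnion] at hx ⊢
    obtain ⟨n, hn⟩ := hx
    exact ⟨n + 1, chn_closure (neg_mem (Subfield.subset_closure hn))⟩
  inv_mem' := by
    rintro x hx
    rw [Set.mem_iUnion] at hx ⊢
    obtain ⟨n, hn⟩ := hx
    exact ⟨n + 1, chn_closure (inv_mem (Subfield.subset_closure hn))⟩

lemma mem_chnF {B : Set E.K} {x : E.K} : x ∈ chnF B ↔ ∃ n, x ∈ chn B n := by
  change x ∈ (⋃ n, chn B n) ↔ _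
  rw [Set.mem_iUnion]

lemma chnF_closed (B : Set E.K) : RelClosed (chnF B) := by
  intro P hP hc x hx
  have h1 : ∀ i, ∃ n, P.coeff i ∈ chn B n := fun i => mem_chnF.mp (hc i)
  choose n hn using h1
  let N := (Finset.range (P.natDegree + 1)).sup n
  have h2 : ∀ i, P.coeff i ∈ Subfield.closure (chn B N) := by
    intro i
    by_cases hi : i ≤ P.natDegree
    · exact Subfield.subset_closure (chn_mono B (Finset.le_sup
        (Finset.mem_range.mpr (Nat.lt_succ_of_le hi))) (hn i))
    · rw [coeff_eq_zero_of_natDegree_lt (by omega)]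
      exact zero_mem _
  have h3 : P ∈ lifts (algebraMap (Subfield.closure (chn B N)) E.K) := by
    rw [lifts_iff_coeff_lifts]
    intro i
    exact ⟨⟨P.coeff i, h2 i⟩, rfl⟩
  rw [mem_lifts] at h3
  obtain ⟨Q, hQ⟩ := h3
  have h4 : x ∈ algC E (chn B N) := by
    refine ⟨Q, ?_, ?_⟩
    · rintro rfl
      rw [Polynomial.map_zero] at hQ
      exact hP hQ.symm
    · rw [aeval_def, ← eval_map, hQ]
      exact hx
  rw [mem_chnF]
  refine ⟨N + 1, ?_⟩
  rw [chn_succ]
  exact Or.inl h4

theorem exists_closure {B : Set E.K} (hB : B.Countable) :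
    ∃ A : Subfield E.K, B ⊆ A ∧ (A : Set E.K).Countable ∧ RelClosed A ∧
      ∀ x ∈ A, x ≠ 0 → ∀ k : ℤ, k ≠ 0 → ∀ δ : E.G, E.vG x = k • δ →
        ∃ z ∈ A, z ≠ 0 ∧ E.vG z = δ := by
  refine ⟨chnF B, ?_, ?_, chnF_closed B, ?_⟩
  · intro x hx
    change x ∈ chnF B
    rw [mem_chnF]
    exact ⟨0, hx⟩
  · have : ((chnF B : Subfield E.K) : Set E.K) = ⋃ n, chn B n := rfl
    rw [this]
    exact Set.countable_iUnion fun n => chn_countable hB n
  · intro x hx _ k hk δ h
    rw [mem_chnF] at hx
    obtain ⟨n, hn⟩ := hx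
    obtain ⟨z, hz, hz0, hzv⟩ := stp_div hn hk h
    refine ⟨z, ?_, hz0, hzv⟩
    rw [mem_chnF]
    exact ⟨n + 1, by rw [chn_succ]; exact hz⟩

end

end Pool.Agent.Lib.MP_65f174_lc.AKE
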