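import Pool.Agent.Lib.MP_65f174_lc.AKE.Sat

set_option autoImplicit false

/-!
# Valued fields with a residue field sort, and their ultrapowers
-/

namespace Pool.Agent.Lib.MP_65f174_lc.AKE

universe u

open Filter Polynomial

/-- A valued field with its residue field and value group. -/
structure VF where
  /-- the field -/
  K : Type u
  /-- the residue field -/
  k : Type u
  /-- the value group -/
  G : Type u
  [fK : Field K]
  [fk : Field k]
  [gG : AddCommGroup G]
  [oG : LinearOrder G]
  [iG : IsOrderedAddMonoid G]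
  /-- the valuation -/
  v : AddValuation K (WithTop G)
  surj : ∀ g : G, ∃ x, v x = (g : WithTop G)
  /-- the residue map, zero outside the valuation ring -/
  res : K → k
  res_add : ∀ x y, 0 ≤ v x → 0 ≤ v y → res (x + y) = res x + res y
  res_mul : ∀ x y, 0 ≤ v x → 0 ≤ v y → res (x * y) = res x * res y
  res_one : res 1 = 1
  res_zero_iff : ∀ x, 0 ≤ v x → (res x = 0 ↔ 0 < v x)
  res_out : ∀ x, v x < 0 → res x = 0
  res_surj : ∀ r, ∃ x, 0 ≤ v x ∧ res x = r

attribute [instance] VF.fK VF.fk VF.gG VF.oG VF.iG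

/-- Hensel's lemma. -/
def VF.Hens (F : VF.{u}) : Prop :=
  ∀ p : F.K[X], p.Monic → (∀ i, 0 ≤ F.v (p.coeff i)) → ∀ x, 0 ≤ F.v x → 0 < F.v (p.eval x) →
    F.v (p.derivative.eval x) = 0 → ∃ y, p.eval y = 0 ∧ 0 < F.v (y - x)

namespace VF

variable (F : VF.{u})

lemma res_zero : F.res 0 = 0 := by
  rw [F.res_zero_iff 0 (by rw [AddValuation.map_zero]; exact le_top), AddValuation.map_zero]
  exact WithTop.coe_lt_top 0

lemma res_neg (x : F.K) : F.res (-x) = - F.res x := by
  rcases lt_or_ge (F.v x) 0 with h | h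
  · rw [F.res_out x h, F.res_out (-x) (by rw [AddValuation.map_neg]; exact h), neg_zero]
  · have h1 : 0 ≤ F.v (-x) := by rw [AddValuation.map_neg]; exact h
    have := F.res_add x (-x) h h1
    rw [add_neg_cancel, F.res_zero] at this
    exact (neg_eq_of_add_eq_zero_right this.symm).symm

lemma res_sub (x y : F.K) (hx : 0 ≤ F.v x) (hy : 0 ≤ F.v y) :
    F.res (x - y) = F.res x - F.res y := by
  rw [sub_eq_add_neg, F.res_add _ _ hx (by rw [AddValuation.map_neg]; exact hy), F.res_neg,
    sub_eq_add_neg]

end VF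

section ultra

variable (U : Ultrafilter ℕ)

open Classical in
/-- the element of `WithTop (Gm U G)` given by a sequence -/
noncomputable def tg {G : Type u} [Zero G] (t : ℕ → WithTop G) : WithTop (Gm U G) :=
  if ∀ᶠ i in (U : Filter ℕ), t i = ⊤ then ⊤
  else (((fun i => (t i).untopD 0 : ℕ → G) : Gm U G) : WithTop (Gm U G))

variable {U}

section
set_option linter.unusedSectionVars false
variable {G : Type u} [AddCommGroup G] [LinearOrder G] [IsOrderedAddMonoid G]

lemma tg_top {t : ℕ → WithTop G} (h : ∀ᶠ i in (U : Filter ℕ), t i = ⊤) : tg U t = ⊤ := by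
  unfold tg; rw [if_pos h]

lemma tg_coe (g : ℕ → G) : tg U (fun i => (g i : WithTop G))
    = (((g : ℕ → G) : Gm U G) : WithTop (Gm U G)) := by
  unfold tg
  rw [if_neg]
  · simp
  · intro h
    obtain ⟨i, hi⟩ := h.exists
    exact WithTop.coe_ne_top hi

lemma tg_congr {s t : ℕ → WithTop G} (h : ∀ᶠ i in (U : Filter ℕ), s i = t i) :
    tg U s = tg U t := by
  by_cases hs : ∀ᶠ i in (U : Filter ℕ), s i = ⊤
  · rw [tg_top hs, tg_top]
    filter_upwards [h, hs] with i h1 h2
    rw [← h1, h2]
  · have ht : ¬ ∀ᶠ i in (U : Filter ℕ), t i = ⊤ := by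
      intro ht
      apply hs
      filter_upwards [h, ht] with i h1 h2
      rw [h1, h2]
    unfold tg
    rw [if_neg hs, if_neg ht]
    congr 1
    rw [Germ.coe_eq]
    filter_upwards [h] with i hi
    simp only [hi]

/-- normal form -/
lemma tg_cases (t : ℕ → WithTop G) : (∀ᶠ i in (U : Filter ℕ), t i = ⊤) ∨
    ∃ g : ℕ → G, ∀ᶠ i in (U : Filter ℕ), t i = (g i : WithTop G) := by
  by_cases h : ∀ᶠ i in (U : Filter ℕ), t i = ⊤
  · exact Or.inl h
  · right
    rw [← Ultrafilter.eventually_not] at h
    refine ⟨fun i => (t i).untopD 0, ?_⟩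
    filter_upwards [h] with i hi
    obtain ⟨g, hg⟩ := WithTop.ne_top_iff_exists.mp hi
    simp [← hg]

lemma tg_le {s t : ℕ → WithTop G} : tg U s ≤ tg U t ↔ ∀ᶠ i in (U : Filter ℕ), s i ≤ t i := by
  rcases tg_cases (U := U) t with ht | ⟨g, hg⟩
  · rw [tg_top ht]
    constructor
    · intro _
      filter_upwards [ht] with i hi
      rw [hi]; exact le_top
    · intro _; exact le_top
  · rw [tg_congr hg, tg_coe]
    rcases tg_cases (U := U) s with hs | ⟨f, hf⟩
    · rw [tg_top hs]
      constructor
      · intro h; exact absurd h (by simp)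
      · intro h
        obtain ⟨i, h1, h2, h3⟩ := (h.and (hs.and hg)).exists
        rw [h2, h3] at h1
        exact absurd h1 (by simp)
    · rw [tg_congr hf, tg_coe, WithTop.coe_le_coe, Germ.coe_le]
      constructor
      · intro h
        filter_upwards [h, hf, hg] with i h1 h2 h3
        rw [h2, h3]; exact_mod_cast h1
      · intro h
        filter_upwards [h, hf, hg] with i h1 h2 h3
        rw [h2, h3] at h1; exact_mod_cast h1

lemma tg_eq {s t : ℕ → WithTop G} : tg U s = tg U t ↔ ∀ᶠ i in (U : Filter ℕ), s i = t i := by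
  rw [le_antisymm_iff, tg_le, tg_le, ← Filter.eventually_and]
  simp only [le_antisymm_iff]

lemma tg_lt {s t : ℕ → WithTop G} : tg U s < tg U t ↔ ∀ᶠ i in (U : Filter ℕ), s i < t i := by
  rw [← not_le, tg_le, ← Ultrafilter.eventually_not]
  simp only [not_le]

lemma tg_add (s t : ℕ → WithTop G) : tg U (fun i => s i + t i) = tg U s + tg U t := by
  rcases tg_cases (U := U) t with ht | ⟨g, hg⟩
  · rw [tg_top ht, tg_top, add_top]
    filter_upwards [ht] with i hi
    rw [hi, add_top]
  · rcases tg_cases (U := U) s with hs | ⟨f, hf⟩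
    · rw [tg_top hs, tg_top, top_add]
      filter_upwards [hs] with i hi
      rw [hi, top_add]
    · rw [tg_congr hf, tg_congr hg, tg_coe, tg_coe, ← WithTop.coe_add, ← Germ.coe_add,
        ← tg_coe]
      refine tg_congr ?_
      filter_upwards [hf, hg] with i h1 h2
      rw [h1, h2]
      rfl

lemma tg_zero : tg U (fun _ => (0 : WithTop G)) = 0 := by
  have := tg_coe (U := U) (fun _ => (0 : G))
  exact this

lemma tg_surj (w : WithTop (Gm U G)) : ∃ t : ℕ → WithTop G, tg U t = w := by
  induction w with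
  | top => exact ⟨fun _ => ⊤, tg_top (Filter.Eventually.of_forall fun _ => rfl)⟩
  | coe w =>
    induction w using Germ.inductionOn with
    | _ g => exact ⟨fun i => (g i : WithTop G), tg_coe g⟩

end

variable (F : VF.{u})

/-- the valuation of the ultrapower, as a function -/
noncomputable def uv (x : Gm U F.K) : WithTop (Gm U F.G) :=
  Quotient.liftOn x (fun a => tg U (fun i => F.v (a i))) (by
    intro a b hab
    refine tg_congr ?_
    have hab' : ∀ᶠ i in (U : Filter ℕ), a i = b i := hab
    filter_upwards [hab'] with i hi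
    rw [hi])

lemma uv_coe (a : ℕ → F.K) : uv F ((a : ℕ → F.K) : Gm U F.K) = tg U (fun i => F.v (a i)) := rfl

variable (U)

/-- the valuation of the ultrapower -/
noncomputable def uval : AddValuation (Gm U F.K) (WithTop (Gm U F.G)) :=
  AddValuation.of (uv F)
    (by
      show uv F (((fun _ => 0 : ℕ → F.K)) : Gm U F.K) = ⊤
      rw [uv_coe]
      refine tg_top (Filter.Eventually.of_forall fun i => ?_)
      exact AddValuation.map_zero _)
    (by
      show uv F (((fun _ => 1 : ℕ → F.K)) : Gm U F.K) = 0
      rw [uv_coe]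
      simp only [AddValuation.map_one]
      exact tg_zero)
    (by
      intro x y
      induction x using Germ.inductionOn with
      | _ a =>
        induction y using Germ.inductionOn with
        | _ b =>
          rw [← Germ.coe_add, uv_coe, uv_coe, uv_coe, min_le_iff, tg_le, tg_le,
            ← Ultrafilter.eventually_or]
          refine Filter.Eventually.of_forall fun i => ?_
          rw [← min_le_iff]
          exact AddValuation.map_add _ _ _)
    (by
      intro x y
      induction x using Germ.inductionOn with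
      | _ a =>
        induction y using Germ.inductionOn with
        | _ b =>
          rw [← Germ.coe_mul, uv_coe, uv_coe, uv_coe, ← tg_add]
          refine tg_congr (Filter.Eventually.of_forall fun i => ?_)
          exact AddValuation.map_mul _ _ _)

lemma uval_coe (a : ℕ → F.K) : uval U F ((a : ℕ → F.K) : Gm U F.K)
    = tg U (fun i => F.v (a i)) := rfl

lemma zero_eq_tg : (0 : WithTop (Gm U F.G)) = tg U (fun _ => (0 : WithTop F.G)) := tg_zero.symm

/-- The ultrapower of a valued field. -/
noncomputable def VF.ultra : VF.{u} where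
  K := Gm U F.K
  k := Gm U F.k
  G := Gm U F.G
  v := uval U F
  surj := by
    intro g
    induction g using Germ.inductionOn with
    | _ g =>
      choose x hx using fun i => F.surj (g i)
      refine ⟨((x : ℕ → F.K) : Gm U F.K), ?_⟩
      rw [uval_coe, ← tg_coe]
      exact tg_congr (Filter.Eventually.of_forall fun i => hx i)
  res := Germ.map F.res
  res_add := by
    intro x y
    induction x using Germ.inductionOn with
    | _ a =>
      induction y using Germ.inductionOn with
      | _ b =>
        intro hx hy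
        rw [uval_coe, zero_eq_tg, tg_le] at hx hy
        rw [← Germ.coe_add, Germ.map_coe, Germ.map_coe, Germ.map_coe, ← Germ.coe_add,
          Germ.coe_eq]
        filter_upwards [hx, hy] with i h1 h2
        exact F.res_add _ _ h1 h2
  res_mul := by
    intro x y
    induction x using Germ.inductionOn with
    | _ a =>
      induction y using Germ.inductionOn with
      | _ b =>
        intro hx hy
        rw [uval_coe, zero_eq_tg, tg_le] at hx hy
        rw [← Germ.coe_mul, Germ.map_coe, Germ.map_coe, Germ.map_coe, ← Germ.coe_mul,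
          Germ.coe_eq]
        filter_upwards [hx, hy] with i h1 h2
        exact F.res_mul _ _ h1 h2
  res_one := by
    show Germ.map F.res (((fun _ => 1 : ℕ → F.K)) : Gm U F.K)
      = (((fun _ => 1 : ℕ → F.k)) : Gm U F.k)
    rw [Germ.map_coe, Germ.coe_eq]
    exact Filter.Eventually.of_forall fun i => F.res_one
  res_zero_iff := by
    intro x
    induction x using Germ.inductionOn with
    | _ a =>
      intro hx
      rw [uval_coe, zero_eq_tg, tg_le] at hx
      have h0 : (0 : Gm U F.k) = (((fun _ => 0 : ℕ → F.k)) : Gm U F.k) := rfl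
      rw [Germ.map_coe, h0, Germ.coe_eq, uval_coe, zero_eq_tg, tg_lt]
      constructor
      · intro h
        filter_upwards [h, hx] with i h1 h2
        exact (F.res_zero_iff _ h2).mp h1
      · intro h
        filter_upwards [h, hx] with i h1 h2
        exact (F.res_zero_iff _ h2).mpr h1
  res_out := by
    intro x
    induction x using Germ.inductionOn with
    | _ a =>
      intro hx
      rw [uval_coe, zero_eq_tg, tg_lt] at hx
      have h0 : (0 : Gm U F.k) = (((fun _ => 0 : ℕ → F.k)) : Gm U F.k) := rfl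
      rw [Germ.map_coe, h0, Germ.coe_eq]
      filter_upwards [hx] with i hi
      exact F.res_out _ hi
  res_surj := by
    intro r
    induction r using Germ.inductionOn with
    | _ r =>
      choose x hx1 hx2 using fun i => F.res_surj (r i)
      refine ⟨((x : ℕ → F.K) : Gm U F.K), ?_, ?_⟩
      · rw [uval_coe, zero_eq_tg, tg_le]
        exact Filter.Eventually.of_forall fun i => hx1 i
      · rw [Germ.map_coe, Germ.coe_eq]
        exact Filter.Eventually.of_forall fun i => hx2 i

/-! ### Germs as elements of the ultrapower -/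

variable {F}

/-- element of the field given by a sequence -/
def gK (a : ℕ → F.K) : (F.ultra U).K := ((a : ℕ → F.K) : Gm U F.K)

/-- element of the residue field given by a sequence -/
def gk (a : ℕ → F.k) : (F.ultra U).k := ((a : ℕ → F.k) : Gm U F.k)

/-- element of the value group given by a sequence -/
def gG (a : ℕ → F.G) : (F.ultra U).G := ((a : ℕ → F.G) : Gm U F.G)

/-- element of the value group with infinity given by a sequence -/
noncomputable def gT (a : ℕ → WithTop F.G) : WithTop (F.ultra U).G := tg U a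

variable {U}

lemma gK_surj (x : (F.ultra U).K) : ∃ a : ℕ → F.K, x = gK U a := by
  change Gm U F.K at x
  induction x using Germ.inductionOn with
  | _ a => exact ⟨a, rfl⟩

lemma gk_surj (x : (F.ultra U).k) : ∃ a : ℕ → F.k, x = gk U a := by
  change Gm U F.k at x
  induction x using Germ.inductionOn with
  | _ a => exact ⟨a, rfl⟩

lemma gG_surj (x : (F.ultra U).G) : ∃ a : ℕ → F.G, x = gG U a := by
  change Gm U F.G at x
  induction x using Germ.inductionOn with
  | _ a => exact ⟨a, rfl⟩

lemma gT_surj (x : WithTop (F.ultra U).G) : ∃ a : ℕ → WithTop F.G, x = gT U a := by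
  obtain ⟨a, ha⟩ := tg_surj (U := U) (G := F.G) x
  exact ⟨a, ha.symm⟩

lemma gK_eq {a b : ℕ → F.K} : gK U a = gK U b ↔ ∀ᶠ i in (U : Filter ℕ), a i = b i :=
  Germ.coe_eq

lemma gk_eq {a b : ℕ → F.k} : gk U a = gk U b ↔ ∀ᶠ i in (U : Filter ℕ), a i = b i :=
  Germ.coe_eq

lemma gG_eq {a b : ℕ → F.G} : gG U a = gG U b ↔ ∀ᶠ i in (U : Filter ℕ), a i = b i :=
  Germ.coe_eq

lemma gG_lt {a b : ℕ → F.G} : gG U a < gG U b ↔ ∀ᶠ i in (U : Filter ℕ), a i < b i :=
  Germ.coe_lt

lemma gT_eq {a b : ℕ → WithTop F.G} : gT U a = gT U b ↔ ∀ᶠ i in (U : Filter ℕ), a i = b i :=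
  tg_eq

lemma gT_le {a b : ℕ → WithTop F.G} : gT U a ≤ gT U b ↔ ∀ᶠ i in (U : Filter ℕ), a i ≤ b i :=
  tg_le

lemma gT_lt {a b : ℕ → WithTop F.G} : gT U a < gT U b ↔ ∀ᶠ i in (U : Filter ℕ), a i < b i :=
  tg_lt

lemma gT_add (a b : ℕ → WithTop F.G) : gT U a + gT U b = gT U (fun i => a i + b i) :=
  (tg_add a b).symm

lemma gT_zero : (0 : WithTop (F.ultra U).G) = gT U (fun _ => (0 : WithTop F.G)) :=
  tg_zero.symm

lemma gT_top : (⊤ : WithTop (F.ultra U).G) = gT U (fun _ => (⊤ : WithTop F.G)) :=
  (tg_top (Filter.Eventually.of_forall fun _ => rfl)).symm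

lemma gT_coe (a : ℕ → F.G) : ((gG U a : (F.ultra U).G) : WithTop (F.ultra U).G)
    = gT U (fun i => (a i : WithTop F.G)) := (tg_coe a).symm

lemma gK_add (a b : ℕ → F.K) : gK U a + gK U b = gK U (fun i => a i + b i) := rfl
lemma gK_mul (a b : ℕ → F.K) : gK U a * gK U b = gK U (fun i => a i * b i) := rfl
lemma gK_neg (a : ℕ → F.K) : - gK U a = gK U (fun i => - a i) := rfl
lemma gK_zero : (0 : (F.ultra U).K) = gK U (fun _ => 0) := rfl
lemma gK_one : (1 : (F.ultra U).K) = gK U (fun _ => 1) := rfl
lemma gk_add (a b : ℕ → F.k) : gk U a + gk U b = gk U (fun i => a i + b i) := rfl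
lemma gk_mul (a b : ℕ → F.k) : gk U a * gk U b = gk U (fun i => a i * b i) := rfl
lemma gk_neg (a : ℕ → F.k) : - gk U a = gk U (fun i => - a i) := rfl
lemma gk_zero : (0 : (F.ultra U).k) = gk U (fun _ => 0) := rfl
lemma gk_one : (1 : (F.ultra U).k) = gk U (fun _ => 1) := rfl
lemma gG_add (a b : ℕ → F.G) : gG U a + gG U b = gG U (fun i => a i + b i) := rfl
lemma gG_neg (a : ℕ → F.G) : - gG U a = gG U (fun i => - a i) := rfl
lemma gG_zero : (0 : (F.ultra U).G) = gG U (fun _ => 0) := rfl

lemma gK_sub (a b : ℕ → F.K) : gK U a - gK U b = gK U (fun i => a i - b i) := by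
  rw [sub_eq_add_neg, gK_neg, gK_add]
  simp only [sub_eq_add_neg]

lemma v_gK (a : ℕ → F.K) : (F.ultra U).v (gK U a) = gT U (fun i => F.v (a i)) := rfl

lemma res_gK (a : ℕ → F.K) : (F.ultra U).res (gK U a) = gk U (fun i => F.res (a i)) := rfl

/-- evaluation of polynomials in an ultrapower -/
lemma exists_poly_rep (p : Polynomial (F.ultra U).K) (hp : p.Monic) :
    ∃ P : ℕ → Polynomial F.K, (∀ i, (P i).Monic) ∧ (∀ i, (P i).natDegree = p.natDegree) ∧
      (∀ j, p.coeff j = gK U (fun i => (P i).coeff j)) ∧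
      (∀ x : ℕ → F.K, p.eval (gK U x) = gK U (fun i => (P i).eval (x i))) ∧
      (∀ x : ℕ → F.K, p.derivative.eval (gK U x)
        = gK U (fun i => (P i).derivative.eval (x i))) := by
  let π : (ℕ → F.K) →+* (F.ultra U).K :=
    { toFun := fun a => gK U a
      map_one' := rfl
      map_mul' := fun _ _ => rfl
      map_zero' := rfl
      map_add' := fun _ _ => rfl }
  have hπ : Function.Surjective π := fun x => by
    obtain ⟨a, rfl⟩ := gK_surj x
    exact ⟨a, rfl⟩
  have hlift : p ∈ Polynomial.lifts π := by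
    rw [Polynomial.mem_lifts]
    exact Polynomial.map_surjective π hπ p
  obtain ⟨q, hq1, hq2, hq3⟩ := Polynomial.lifts_and_degree_eq_and_monic hlift hp
  have hev : ∀ (r : Polynomial (ℕ → F.K)) (x : ℕ → F.K), (r.map π).eval (π x)
      = π (fun i => (r.map (Pi.evalRingHom (fun _ : ℕ => F.K) i)).eval (x i)) := by
    intro r x
    rw [Polynomial.eval_map, Polynomial.eval₂_at_apply]
    congr 1
    funext i
    rw [Polynomial.eval_map]
    have : x i = Pi.evalRingHom (fun _ : ℕ => F.K) i x := rfl
    rw [this, Polynomial.eval₂_at_apply]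
    rfl
  refine ⟨fun i => q.map (Pi.evalRingHom (fun _ : ℕ => F.K) i), fun i => hq3.map _, ?_, ?_, ?_,
    ?_⟩
  · intro i
    rw [hq3.natDegree_map]
    exact Polynomial.natDegree_eq_of_degree_eq hq2
  · intro j
    rw [← hq1, Polynomial.coeff_map]
    show π _ = π _
    congr 1
    funext i
    rw [Polynomial.coeff_map]
    rfl
  · intro x
    rw [← hq1]
    exact hev q x
  · intro x
    rw [← hq1, Polynomial.derivative_map]
    have := hev q.derivative x
    rw [show gK U x = π x from rfl, this]
    show π _ = π _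
    congr 1
    funext i
    rw [Polynomial.derivative_map]

theorem ultra_hens (hF : F.Hens) : (F.ultra U).Hens := by
  intro p hp hc x hx h0 h1
  obtain ⟨P, hP1, hP2, hP3, hP4, hP5⟩ := exists_poly_rep p hp
  obtain ⟨x, rfl⟩ := gK_surj x
  rw [hP4, v_gK, gT_zero, gT_lt] at h0
  rw [hP5, v_gK, gT_zero, gT_eq] at h1
  rw [v_gK, gT_zero, gT_le] at hx
  have h2 : ∀ᶠ i in (U : Filter ℕ), ∀ j ∈ Finset.range (p.natDegree + 1),
      0 ≤ F.v ((P i).coeff j) := by
    rw [Filter.eventually_all_finset]
    intro j _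
    have := hc j
    rw [hP3, v_gK, gT_zero, gT_le] at this
    exact this
  have h3 : ∀ᶠ i in (U : Filter ℕ), ∃ y, (P i).eval y = 0 ∧ 0 < F.v (y - x i) := by
    filter_upwards [h0, h1, hx, h2] with i k0 k1 k2 k3
    refine hF (P i) (hP1 i) (fun j => ?_) (x i) k2 k0 k1
    by_cases hj : j ≤ p.natDegree
    · exact k3 j (Finset.mem_range.mpr (Nat.lt_succ_of_le hj))
    · rw [Polynomial.coeff_eq_zero_of_natDegree_lt (by rw [hP2]; omega), AddValuation.map_zero]
      exact le_top
  classical
  let y : ℕ → F.K := fun i => if h : ∃ y, (P i).eval y = 0 ∧ 0 < F.v (y - x i) then h.choose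
    else 0
  refine ⟨gK U y, ?_, ?_⟩
  · rw [hP4, gK_zero, gK_eq]
    filter_upwards [h3] with i hi
    simp only [y, dif_pos hi]
    exact hi.choose_spec.1
  · rw [gK_sub, v_gK, gT_zero, gT_lt]
    filter_upwards [h3] with i hi
    simp only [y, dif_pos hi]
    exact hi.choose_spec.2

theorem ultra_charZero (hF : CharZero F.k) : CharZero (F.ultra U).k := by
  constructor
  intro m n hmn
  have h1 : ∀ m : ℕ, ((m : ℕ) : (F.ultra U).k) = gk U (fun _ => (m : F.k)) := fun m => rfl
  rw [h1, h1, gk_eq] at hmn
  obtain ⟨i, hi⟩ := hmn.exists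
  exact_mod_cast hi

end ultra

end Pool.Agent.Lib.MP_65f174_lc.AKE
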