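import Pool.Agent.Lib.MP_65f174_lc.AKE.Defs
import Pool.Agent.Lib.MP_65f174_lc.AKE.VF

set_option autoImplicit false

/-!
# The languages of rings and ordered abelian groups: renaming, ultrapowers
-/

namespace Pool.Agent.Lib.MP_65f174_lc.AKE

universe u

open Filter

deriving instance Countable for RingTm
deriving instance Countable for RingQF
deriving instance Countable for OagTm
deriving instance Countable for OagQF

/-! ### Rings -/

/-- renaming of variables -/
def RingTm.ren {m m' : ℕ} (ρ : Fin m → Fin m') : RingTm m → RingTm m'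
  | .var i => .var (ρ i)
  | .zero => .zero
  | .one => .one
  | .neg t => .neg (t.ren ρ)
  | .add t s => .add (t.ren ρ) (s.ren ρ)
  | .mul t s => .mul (t.ren ρ) (s.ren ρ)

theorem RingTm.eval_ren {R : Type u} [CommRing R] {m m' : ℕ} (ρ : Fin m → Fin m')
    (t : RingTm m) (e : Fin m' → R) : (t.ren ρ).eval e = t.eval (e ∘ ρ) := by
  induction t with
  | var i => rfl
  | zero => rfl
  | one => rfl
  | neg t ih => simp only [RingTm.ren, RingTm.eval, ih]
  | add t s iht ihs => simp only [RingTm.ren, RingTm.eval, iht, ihs]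
  | mul t s iht ihs => simp only [RingTm.ren, RingTm.eval, iht, ihs]

/-- renaming of variables -/
def RingQF.ren {m m' : ℕ} (ρ : Fin m → Fin m') : RingQF m → RingQF m'
  | .eq t s => .eq (t.ren ρ) (s.ren ρ)
  | .not φ => .not (φ.ren ρ)
  | .and φ ψ => .and (φ.ren ρ) (ψ.ren ρ)
  | .or φ ψ => .or (φ.ren ρ) (ψ.ren ρ)

theorem RingQF.holds_ren {R : Type u} [CommRing R] {m m' : ℕ} (ρ : Fin m → Fin m')
    (φ : RingQF m) (e : Fin m' → R) : (φ.ren ρ).Holds e ↔ φ.Holds (e ∘ ρ) := by
  induction φ with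
  | eq t s => simp only [RingQF.ren, RingQF.Holds, RingTm.eval_ren]
  | not φ ih => simp only [RingQF.ren, RingQF.Holds, ih]
  | and φ ψ ih1 ih2 => simp only [RingQF.ren, RingQF.Holds, ih1, ih2]
  | or φ ψ ih1 ih2 => simp only [RingQF.ren, RingQF.Holds, ih1, ih2]

/-- the language of rings -/
def ringSyn : Syn where
  Fm := RingQF
  countable := fun _ => inferInstance
  and := fun _ => RingQF.and
  not := fun _ => RingQF.not
  ren := fun _ _ ρ φ => φ.ren ρ
  eq := RingQF.eq (.var 0) (.var 1)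

/-- a ring as a structure -/
def ringSem (R : Type u) [CommRing R] : Sem ringSyn R where
  H := fun _ θ e => RingQF.Holds e θ
  and_iff := fun _ _ _ _ => Iff.rfl
  not_iff := fun _ _ _ => Iff.rfl
  ren_iff := fun _ _ ρ φ e => RingQF.holds_ren ρ φ e
  eq_iff := fun _ => Iff.rfl

/-! ### Ordered abelian groups -/

/-- renaming of variables -/
def OagTm.ren {m m' : ℕ} (ρ : Fin m → Fin m') : OagTm m → OagTm m'
  | .var i => .var (ρ i)
  | .zero => .zero
  | .add t s => .add (t.ren ρ) (s.ren ρ)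

theorem OagTm.eval_ren {G : Type u} [AddCommGroup G] {m m' : ℕ} (ρ : Fin m → Fin m')
    (t : OagTm m) (e : Fin m' → G) : (t.ren ρ).eval e = t.eval (e ∘ ρ) := by
  induction t with
  | var i => rfl
  | zero => rfl
  | add t s iht ihs => simp only [OagTm.ren, OagTm.eval, iht, ihs]

/-- renaming of variables -/
def OagQF.ren {m m' : ℕ} (ρ : Fin m → Fin m') : OagQF m → OagQF m'
  | .eq t s => .eq (t.ren ρ) (s.ren ρ)
  | .lt t s => .lt (t.ren ρ) (s.ren ρ)
  | .not φ => .not (φ.ren ρ)
  | .and φ ψ => .and (φ.ren ρ) (ψ.ren ρ)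
  | .or φ ψ => .or (φ.ren ρ) (ψ.ren ρ)

theorem OagQF.holds_ren {G : Type u} [AddCommGroup G] [LinearOrder G] {m m' : ℕ}
    (ρ : Fin m → Fin m') (φ : OagQF m) (e : Fin m' → G) :
    (φ.ren ρ).Holds e ↔ φ.Holds (e ∘ ρ) := by
  induction φ with
  | eq t s => simp only [OagQF.ren, OagQF.Holds, OagTm.eval_ren]
  | lt t s => simp only [OagQF.ren, OagQF.Holds, OagTm.eval_ren]
  | not φ ih => simp only [OagQF.ren, OagQF.Holds, ih]
  | and φ ψ ih1 ih2 => simp only [OagQF.ren, OagQF.Holds, ih1, ih2]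
  | or φ ψ ih1 ih2 => simp only [OagQF.ren, OagQF.Holds, ih1, ih2]

/-- the language of ordered abelian groups -/
def oagSyn : Syn where
  Fm := OagQF
  countable := fun _ => inferInstance
  and := fun _ => OagQF.and
  not := fun _ => OagQF.not
  ren := fun _ _ ρ φ => φ.ren ρ
  eq := OagQF.eq (.var 0) (.var 1)

/-- an ordered abelian group as a structure -/
def oagSem (G : Type u) [AddCommGroup G] [LinearOrder G] : Sem oagSyn G where
  H := fun _ θ e => OagQF.Holds e θ
  and_iff := fun _ _ _ _ => Iff.rfl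
  not_iff := fun _ _ _ => Iff.rfl
  ren_iff := fun _ _ ρ φ e => OagQF.holds_ren ρ φ e
  eq_iff := fun _ => Iff.rfl

/-! ### Ultrapowers -/

section

variable {U : Ultrafilter ℕ} {F : VF.{u}}

theorem RingTm.eval_gk {m : ℕ} (t : RingTm m) (f : Fin m → ℕ → F.k) :
    t.eval (fun i => gk U (f i)) = gk U (fun j => t.eval fun i => f i j) := by
  induction t with
  | var i => rfl
  | zero => exact gk_zero
  | one => exact gk_one
  | neg t ih => simp only [RingTm.eval, ih]; rfl
  | add t s iht ihs => simp only [RingTm.eval, iht, ihs]; rfl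
  | mul t s iht ihs => simp only [RingTm.eval, iht, ihs]; rfl

theorem RingTm.eval_gK {m : ℕ} (t : RingTm m) (f : Fin m → ℕ → F.K) :
    t.eval (fun i => gK U (f i)) = gK U (fun j => t.eval fun i => f i j) := by
  induction t with
  | var i => rfl
  | zero => exact gK_zero
  | one => exact gK_one
  | neg t ih => simp only [RingTm.eval, ih]; rfl
  | add t s iht ihs => simp only [RingTm.eval, iht, ihs]; rfl
  | mul t s iht ihs => simp only [RingTm.eval, iht, ihs]; rfl

theorem OagTm.eval_gG {m : ℕ} (t : OagTm m) (f : Fin m → ℕ → F.G) :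
    t.eval (fun i => gG U (f i)) = gG U (fun j => t.eval fun i => f i j) := by
  induction t with
  | var i => rfl
  | zero => exact gG_zero
  | add t s iht ihs => simp only [OagTm.eval, iht, ihs]; rfl

theorem RingQF.holds_gk {m : ℕ} (θ : RingQF m) (f : Fin m → ℕ → F.k) :
    θ.Holds (fun i => gk U (f i)) ↔ ∀ᶠ j in (U : Filter ℕ), θ.Holds fun i => f i j := by
  induction θ with
  | eq t s =>
    simp only [RingQF.Holds]
    rw [RingTm.eval_gk, RingTm.eval_gk, gk_eq]
  | not φ ih =>
    simp only [RingQF.Holds]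
    rw [ih, Ultrafilter.eventually_not]
  | and φ ψ ih1 ih2 =>
    simp only [RingQF.Holds]
    rw [ih1, ih2, Filter.eventually_and]
  | or φ ψ ih1 ih2 =>
    simp only [RingQF.Holds]
    rw [ih1, ih2, Ultrafilter.eventually_or]

theorem OagQF.holds_gG {m : ℕ} (θ : OagQF m) (f : Fin m → ℕ → F.G) :
    θ.Holds (fun i => gG U (f i)) ↔ ∀ᶠ j in (U : Filter ℕ), θ.Holds fun i => f i j := by
  induction θ with
  | eq t s =>
    simp only [OagQF.Holds]
    rw [OagTm.eval_gG, OagTm.eval_gG, gG_eq]
  | lt t s =>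
    simp only [OagQF.Holds]
    rw [OagTm.eval_gG, OagTm.eval_gG, gG_lt]
  | not φ ih =>
    simp only [OagQF.Holds]
    rw [ih, Ultrafilter.eventually_not]
  | and φ ψ ih1 ih2 =>
    simp only [OagQF.Holds]
    rw [ih1, ih2, Filter.eventually_and]
  | or φ ψ ih1 ih2 =>
    simp only [OagQF.Holds]
    rw [ih1, ih2, Ultrafilter.eventually_or]

theorem isUlt_ring : IsUlt (U := U) (ringSem F.k)
    (show Sem ringSyn (Gm U F.k) from ringSem (F.ultra U).k) :=
  fun _ θ f => RingQF.holds_gk θ f

theorem isUlt_oag : IsUlt (U := U) (oagSem F.G)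
    (show Sem oagSyn (Gm U F.G) from oagSem (F.ultra U).G) :=
  fun _ θ f => OagQF.holds_gG θ f

end

end Pool.Agent.Lib.MP_65f174_lc.AKE
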