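import Pool.Agent.Lib.MP_65f174_lc.AKE.Close
import Pool.Agent.Lib.MP_65f174_lc.AKE.Lang

set_option autoImplicit false

/-!
# Partial isomorphisms of a given level, and their extension
-/

namespace Pool.Agent.Lib.MP_65f174_lc.AKE

universe u

open Filter

/-! ### Atomic formulas -/

section

variable {k k' : Type u} [CommRing k] [CommRing k'] {n : ℕ} {R : Set (k × k')}

lemma mem3 {X : Type*} {R : Set X} {a b c : X} (ha : a ∈ R) (hb : b ∈ R) (hc : c ∈ R) :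
    ∀ i : Fin 3, (![a, b, c] : Fin 3 → X) i ∈ R := by
  intro i
  fin_cases i
  · exact ha
  · exact hb
  · exact hc

lemma mem2 {X : Type*} {R : Set X} {a b : X} (ha : a ∈ R) (hb : b ∈ R) :
    ∀ i : Fin 2, (![a, b] : Fin 2 → X) i ∈ R := by
  intro i
  fin_cases i
  · exact ha
  · exact hb

lemma mem1 {X : Type*} {R : Set X} {a : X} (ha : a ∈ R) :
    ∀ i : Fin 1, (![a] : Fin 1 → X) i ∈ R := by
  intro i
  fin_cases i
  exact ha

lemma Tn.ring_add (h : Tn n (ringSem k) (ringSem k') R) {a b c : k × k'} (ha : a ∈ R)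
    (hb : b ∈ R) (hc : c ∈ R) : a.1 + b.1 = c.1 ↔ a.2 + b.2 = c.2 :=
  h.qf_iff (RingQF.eq (.add (.var 0) (.var 1)) (.var 2)) ![a, b, c] (mem3 ha hb hc)

lemma Tn.ring_mul (h : Tn n (ringSem k) (ringSem k') R) {a b c : k × k'} (ha : a ∈ R)
    (hb : b ∈ R) (hc : c ∈ R) : a.1 * b.1 = c.1 ↔ a.2 * b.2 = c.2 :=
  h.qf_iff (RingQF.eq (.mul (.var 0) (.var 1)) (.var 2)) ![a, b, c] (mem3 ha hb hc)

lemma Tn.ring_one (h : Tn n (ringSem k) (ringSem k') R) {a : k × k'} (ha : a ∈ R) :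
    a.1 = 1 ↔ a.2 = 1 :=
  h.qf_iff (RingQF.eq (.var 0) .one) ![a] (mem1 ha)

lemma Tn.ring_zero (h : Tn n (ringSem k) (ringSem k') R) {a : k × k'} (ha : a ∈ R) :
    a.1 = 0 ↔ a.2 = 0 :=
  h.qf_iff (RingQF.eq (.var 0) .zero) ![a] (mem1 ha)

end

section

variable {G G' : Type u} [AddCommGroup G] [LinearOrder G] [AddCommGroup G'] [LinearOrder G']
  {n : ℕ} {R : Set (G × G')}

lemma Tn.oag_add (h : Tn n (oagSem G) (oagSem G') R) {a b c : G × G'} (ha : a ∈ R)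
    (hb : b ∈ R) (hc : c ∈ R) : a.1 + b.1 = c.1 ↔ a.2 + b.2 = c.2 :=
  h.qf_iff (OagQF.eq (.add (.var 0) (.var 1)) (.var 2)) ![a, b, c] (mem3 ha hb hc)

lemma Tn.oag_lt (h : Tn n (oagSem G) (oagSem G') R) {a b : G × G'} (ha : a ∈ R)
    (hb : b ∈ R) : a.1 < b.1 ↔ a.2 < b.2 :=
  h.qf_iff (OagQF.lt (.var 0) (.var 1)) ![a, b] (mem2 ha hb)

lemma Tn.oag_zero (h : Tn n (oagSem G) (oagSem G') R) {a : G × G'} (ha : a ∈ R) :
    a.1 = 0 ↔ a.2 = 0 :=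
  h.qf_iff (OagQF.eq (.var 0) .zero) ![a] (mem1 ha)

/-- the term `k • t` -/
def OagTm.nsm {m : ℕ} (t : OagTm m) : ℕ → OagTm m
  | 0 => .zero
  | k + 1 => .add (t.nsm k) t

lemma OagTm.eval_nsm {m : ℕ} (t : OagTm m) (e : Fin m → G) (k : ℕ) :
    (t.nsm k).eval e = k • t.eval e := by
  induction k with
  | zero => rw [zero_smul]; rfl
  | succ k ih => rw [succ_nsmul, ← ih]; rfl

lemma Tn.oag_nsmul (h : Tn n (oagSem G) (oagSem G') R) {a b : G × G'} (ha : a ∈ R)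
    (hb : b ∈ R) (k : ℕ) : k • a.1 = b.1 ↔ k • a.2 = b.2 := by
  have := h.qf_iff (OagQF.eq ((OagTm.var 0).nsm k) (.var 1)) ![a, b] (mem2 ha hb)
  change OagQF.Holds _ _ ↔ OagQF.Holds _ _ at this
  simp only [OagQF.Holds, OagTm.eval_nsm] at this
  exact this

lemma Tn.oag_div (h : Tn (n + 1) (oagSem G) (oagSem G') R) {b : G × G'} (hb : b ∈ R) (k : ℕ)
    {x : G} (hx : k • x = b.1) : ∃ y : G', k • y = b.2 := by
  have h1 := h 1 (.ex (.qf (OagQF.eq ((OagTm.var 0).nsm k) (.var 1))))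
    (Lev.ex n (Lev.qf _ _ _)) ![b] (mem1 hb) (by
      refine ⟨x, ?_⟩
      change OagQF.Holds _ _
      simp only [OagQF.Holds, OagTm.eval_nsm]
      exact hx)
  obtain ⟨y, hy⟩ := h1
  change OagQF.Holds _ _ at hy
  simp only [OagQF.Holds, OagTm.eval_nsm] at hy
  exact ⟨y, hy⟩

end

/-! ### Data -/

section

variable {E F : VF.{u}}

/-- pairs of residues of the graph -/
def Rr (G : Subring (E.K × F.K)) : Set (E.k × F.k) :=
  {r | ∃ p ∈ G, r = (E.res p.1, F.res p.2)}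

/-- pairs of values of the graph -/
def Rv (G : Subring (E.K × F.K)) : Set (E.G × F.G) :=
  {r | ∃ p ∈ G, p.1 ≠ 0 ∧ r = (E.vG p.1, F.vG p.2)}

/-- Partial isomorphisms of level `n`. -/
structure Dat (n : ℕ) (E F : VF.{u}) (G : Subring (E.K × F.K)) : Prop where
  ctb : (G : Set (E.K × F.K)).Countable
  G0 : ∀ p ∈ G, p.1 = 0 ↔ p.2 = 0
  Ginv : ∀ p ∈ G, p⁻¹ ∈ G
  Tr : Tn n (ringSem E.k) (ringSem F.k) (Rr G)
  Tv : Tn n (oagSem E.G) (oagSem F.G) (Rv G)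
  pure : 1 ≤ n → ∀ p ∈ G, p.1 ≠ 0 → ∀ k : ℕ, k ≠ 0 → ∀ δ : E.G, E.vG p.1 = k • δ →
    ∃ q ∈ G, q.1 ≠ 0 ∧ E.vG q.1 = δ

variable {n : ℕ} {G : Subring (E.K × F.K)}

lemma Dat.mem_Rv (h : Dat n E F G) {p : E.K × F.K} (hp : p ∈ G) (h0 : p.1 ≠ 0) :
    (E.vG p.1, F.vG p.2) ∈ Rv G := ⟨p, hp, h0, rfl⟩

lemma Dat.ne2 (h : Dat n E F G) {p : E.K × F.K} (hp : p ∈ G) (h0 : p.1 ≠ 0) : p.2 ≠ 0 :=
  fun h1 => h0 ((h.G0 p hp).mpr h1)

/-- the graph respects the comparison of values -/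
lemma Dat.v_le (h : Dat n E F G) {p q : E.K × F.K} (hp : p ∈ G) (hq : q ∈ G) :
    E.v p.1 ≤ E.v q.1 ↔ F.v p.2 ≤ F.v q.2 := by
  by_cases hp0 : p.1 = 0
  · rw [hp0, (h.G0 p hp).mp hp0, AddValuation.map_zero, AddValuation.map_zero, top_le_iff,
      top_le_iff, E.v_top_iff, F.v_top_iff]
    exact h.G0 q hq
  by_cases hq0 : q.1 = 0
  · rw [hq0, (h.G0 q hq).mp hq0, AddValuation.map_zero, AddValuation.map_zero]
    simp
  rw [E.vG_spec hp0, E.vG_spec hq0, F.vG_spec (h.ne2 hp hp0), F.vG_spec (h.ne2 hq hq0),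
    WithTop.coe_le_coe, WithTop.coe_le_coe, ← not_lt, ← not_lt]
  exact not_congr (h.Tv.oag_lt (h.mem_Rv hq hq0) (h.mem_Rv hp hp0))

lemma Dat.nonneg (h : Dat n E F G) {p : E.K × F.K} (hp : p ∈ G) :
    0 ≤ E.v p.1 ↔ 0 ≤ F.v p.2 := by
  have := h.v_le G.one_mem hp
  have e1 : (1 : E.K × F.K).1 = 1 := rfl
  have e2 : (1 : E.K × F.K).2 = 1 := rfl
  rw [e1, e2, AddValuation.map_one, AddValuation.map_one] at this
  exact this

lemma Dat.pureZ (h : Dat n E F G) (hn : 1 ≤ n) : ∀ p ∈ G, p.1 ≠ 0 → ∀ k : ℤ, k ≠ 0 →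
    ∀ δ : E.G, E.vG p.1 = k • δ → ∃ q ∈ G, q.1 ≠ 0 ∧ E.vG q.1 = δ := by
  intro p hp hp0 k hk δ hδ
  obtain ⟨m, rfl | rfl⟩ := k.eq_nat_or_neg
  · exact h.pure hn p hp hp0 m (by exact_mod_cast hk) δ (by rw [hδ, natCast_zsmul])
  · obtain ⟨q, hq, hq0, hqv⟩ := h.pure hn p hp hp0 m (by
      intro h0; apply hk; rw [h0]; simp) (-δ) (by
      rw [hδ, neg_smul, natCast_zsmul, smul_neg])
    refine ⟨q⁻¹, h.Ginv q hq, inv_ne_zero hq0, ?_⟩
    change E.vG (q.1)⁻¹ = δ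
    rw [E.vG_inv hq0, hqv, neg_neg]

/-! ### Swapping the two sides -/

/-- the inverse graph -/
def swapG (G : Subring (E.K × F.K)) : Subring (F.K × E.K) :=
  G.comap (RingEquiv.prodComm : F.K × E.K ≃+* E.K × F.K).toRingHom

lemma mem_swapG {p : F.K × E.K} : p ∈ swapG G ↔ (p.2, p.1) ∈ G := Iff.rfl

lemma Dat.swap (h : Dat (n + 1) E F G) : Dat n F E (swapG G) := by
  have hRr : Rr (swapG G) ⊆ {p | (p.2, p.1) ∈ Rr G} := by
    rintro _ ⟨p, hp, rfl⟩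
    exact ⟨(p.2, p.1), hp, rfl⟩
  have hRv : Rv (swapG G) ⊆ {p | (p.2, p.1) ∈ Rv G} := by
    rintro _ ⟨p, hp, hp0, rfl⟩
    refine ⟨(p.2, p.1), hp, ?_, rfl⟩
    intro h0
    exact hp0 ((h.G0 _ hp).mp h0)
  refine ⟨?_, ?_, ?_, ?_, ?_, ?_⟩
  · have : ((swapG G : Subring (F.K × E.K)) : Set (F.K × E.K)) = Prod.swap '' (G : Set _) := by
      ext p
      constructor
      · intro hp
        exact ⟨(p.2, p.1), hp, rfl⟩
      · rintro ⟨q, hq, rfl⟩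
        exact hq
    rw [this]
    exact h.ctb.image _
  · intro p hp
    exact (h.G0 (p.2, p.1) hp).symm
  · intro p hp
    exact h.Ginv (p.2, p.1) hp
  · exact (Tn.swap h.Tr).mono hRr
  · exact (Tn.swap h.Tv).mono hRv
  · intro hn p hp hp0 k hk δ hδ
    obtain ⟨m, rfl⟩ : ∃ m, n = m + 1 := ⟨n - 1, by omega⟩
    have hTs := Tn.swap h.Tv
    have hpG : (p.2, p.1) ∈ G := hp
    have hp20 : p.2 ≠ 0 := fun h0 => hp0 ((h.G0 _ hpG).mp h0)
    have hmem : (E.vG p.2, F.vG p.1) ∈ Rv G := ⟨(p.2, p.1), hpG, hp20, rfl⟩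
    obtain ⟨ε, hε⟩ := Tn.oag_div (b := (F.vG p.1, E.vG p.2)) hTs hmem k (x := δ) hδ.symm
    obtain ⟨q, hq, hq0, hqv⟩ := h.pure (by omega) (p.2, p.1) hpG hp20 k hk ε hε.symm
    refine ⟨(q.2, q.1), hq, h.ne2 hq hq0, ?_⟩
    have h1 := (h.Tv.oag_nsmul (h.mem_Rv hq hq0) hmem k).mp (by
      change k • E.vG q.1 = E.vG p.2
      rw [hqv]; exact hε)
    change k • F.vG q.2 = F.vG p.1 at h1
    rw [hδ] at h1
    exact nsmul_right_injective hk h1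

end

/-! ### Extension -/

section

variable {U : Ultrafilter ℕ} {E F₀ : VF.{u}} {n : ℕ} {G : Subring (E.K × (F₀.ultra U).K)}

/-- **Extension of partial isomorphisms.** -/
theorem Dat.extend (hU : (U : Filter ℕ) ≤ atTop) [CharZero E.k] (hE : E.Hens) (hF : F₀.Hens)
    (h : Dat (n + 1) E (F₀.ultra U) G) (a : E.K) :
    ∃ G', G ≤ G' ∧ Dat (n + 1) E (F₀.ultra U) G' ∧ ∃ b, (a, b) ∈ G' := by
  classical
  obtain ⟨A, hBA, hAc, hAr, hAp⟩ := exists_closure (E := E)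
    (B := insert a (Prod.fst '' (G : Set (E.K × (F₀.ultra U).K)))) ((h.ctb.image _).insert a)
  have hGA : ∀ p ∈ G, p.1 ∈ A := fun p hp => hBA (Or.inr ⟨p, hp, rfl⟩)
  have haA : a ∈ A := hBA (Or.inl rfl)
  have hRrc : (Rr G).Countable := by
    refine (h.ctb.image (fun p => (E.res p.1, (F₀.ultra U).res p.2))).mono ?_
    rintro _ ⟨p, hp, rfl⟩
    exact ⟨p, hp, rfl⟩
  have hRvc : (Rv G).Countable := by
    refine (h.ctb.image (fun p => (E.vG p.1, (F₀.ultra U).vG p.2))).mono ?_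
    rintro _ ⟨p, hp, _, rfl⟩
    exact ⟨p, hp, rfl⟩
  obtain ⟨Rr', hRr1, _, hRr3, hRr4⟩ := exists_extend hU (S := ringSyn) (n := n) (M := E.k)
    (N₀ := F₀.k) (A := ringSem E.k) (B₀ := ringSem F₀.k) (B := ringSem (F₀.ultra U).k)
    isUlt_ring hRrc h.Tr (X := E.res '' (A : Set E.K)) (hAc.image _)
  obtain ⟨Rv', hRv1, _, hRv3, hRv4⟩ := exists_extend hU (S := oagSyn) (n := n) (M := E.G)
    (N₀ := F₀.G) (A := oagSem E.G) (B₀ := oagSem F₀.G) (B := oagSem (F₀.ultra U).G)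
    isUlt_oag hRvc h.Tv (X := E.vG '' (A : Set E.K)) (hAc.image _)
  change Set (E.k × (F₀.ultra U).k) at Rr'
  change Set (E.G × (F₀.ultra U).G) at Rv'
  have hRr3' : Tn (n + 1) (ringSem E.k) (ringSem (F₀.ultra U).k) Rr' := hRr3
  have hRv3' : Tn (n + 1) (oagSem E.G) (oagSem (F₀.ultra U).G) Rv' := hRv3
  -- the two maps
  let gr : E.k → (F₀.ultra U).k := fun r => if h : ∃ s, (r, s) ∈ Rr' then h.choose else 0
  let gv : E.G → (F₀.ultra U).G := fun r => if h : ∃ s, (r, s) ∈ Rv' then h.choose else 0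
  have hgr : ∀ x ∈ A, (E.res x, gr (E.res x)) ∈ Rr' := by
    intro x hx
    have h1 : ∃ s : (F₀.ultra U).k, (E.res x, s) ∈ Rr' := hRr4 _ ⟨x, hx, rfl⟩
    simp only [gr]
    rw [dif_pos h1]
    exact h1.choose_spec
  have hgv : ∀ x ∈ A, (E.vG x, gv (E.vG x)) ∈ Rv' := by
    intro x hx
    have h1 : ∃ s : (F₀.ultra U).G, (E.vG x, s) ∈ Rv' := hRv4 _ ⟨x, hx, rfl⟩
    simp only [gv]
    rw [dif_pos h1]
    exact h1.choose_spec
  have hgr2 : ∀ p ∈ G, gr (E.res p.1) = (F₀.ultra U).res p.2 := by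
    intro p hp
    exact (hRr3'.eq_iff (hgr p.1 (hGA p hp)) (hRr1 ⟨p, hp, rfl⟩)).mp rfl
  have hgv2 : ∀ p ∈ G, p.1 ≠ 0 → gv (E.vG p.1) = (F₀.ultra U).vG p.2 := by
    intro p hp hp0
    exact (hRv3'.eq_iff (hgv p.1 (hGA p hp)) (hRv1 ⟨p, hp, hp0, rfl⟩)).mp rfl
  have H : LiftHyp E (F₀.ultra U) A G gr gv :=
    { GA := hGA
      G0 := h.G0
      Ginv := h.Ginv
      r_add := by
        intro x hx y hy hx0 hy0
        have h1 := hgr (x + y) (A.add_mem hx hy)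
        rw [E.res_add x y hx0 hy0] at h1
        exact ((hRr3'.ring_add (hgr x hx) (hgr y hy) h1).mp rfl).symm
      r_mul := by
        intro x hx y hy hx0 hy0
        have h1 := hgr (x * y) (A.mul_mem hx hy)
        rw [E.res_mul x y hx0 hy0] at h1
        exact ((hRr3'.ring_mul (hgr x hx) (hgr y hy) h1).mp rfl).symm
      r_one := by
        have h1 := hgr 1 A.one_mem
        rw [E.res_one] at h1
        exact (hRr3'.ring_one h1).mp rfl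
      r_inj := by
        intro x hx _ h0
        exact (hRr3'.ring_zero (hgr x hx)).mpr h0
      v_add := by
        intro x hx y hy hx0 hy0
        have h1 := hgv (x * y) (A.mul_mem hx hy)
        rw [E.vG_mul hx0 hy0] at h1
        exact ((hRv3'.oag_add (hgv x hx) (hgv y hy) h1).mp rfl).symm
      v_le := by
        intro x hx y hy _ _
        rw [← not_lt, ← not_lt]
        exact not_congr (hRv3'.oag_lt (hgv y hy) (hgv x hx))
      Gr := hgr2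
      Gv := fun p hp hp0 => (hgv2 p hp hp0).symm
      pure := h.pureZ (by omega) }
  obtain ⟨D, hDg, hDG, hDv⟩ := exists_lift hU H hAc h.ctb
  obtain ⟨G', hG1, hG2, hG3, hG4⟩ := embed hE (ultra_hens hF) (satB_ultra hU F₀) hAr hAc hDG
  have hres : ∀ p ∈ G', (F₀.ultra U).res p.2 = gr (E.res p.1) := by
    intro p hp
    obtain ⟨h1, h2⟩ := hG2 p hp
    by_cases h0 : 0 ≤ E.v p.1
    · rw [VF.res_of_sim ((D.nonneg p.1 h1).mp h0) h2, D.res_eq p.1 h1 h0, hDg]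
    · have h3 : ¬ 0 ≤ (F₀.ultra U).v p.2 := by
        rw [VF.sim_val h2, ← D.nonneg p.1 h1]; exact h0
      rw [not_le] at h0 h3
      rw [E.res_out _ h0, (F₀.ultra U).res_out _ h3, H.gr_zero]
  have hval : ∀ p ∈ G', p.1 ≠ 0 → (F₀.ultra U).vG p.2 = gv (E.vG p.1) := by
    intro p hp hp0
    obtain ⟨h1, h2⟩ := hG2 p hp
    rw [← hDv p.1 h1 hp0]
    unfold VF.vG
    rw [VF.sim_val h2]
  refine ⟨G', hG1, ⟨hG2.countable hAc, ?_, ?_, ?_, ?_, ?_⟩, hG3 a haA⟩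
  · intro p hp
    obtain ⟨h1, h2⟩ := hG2 p hp
    constructor
    · intro h0
      rw [h0, D.zero] at h2
      exact VF.sim_zero_right.mp h2
    · intro h0
      by_contra hp0
      rw [h0, VF.sim_zero_left] at h2
      exact D.Y_ne_zero h1 hp0 h2
  · intro p hp
    exact hG4 p.1 p.2 hp
  · refine Tn.mono hRr3' ?_
    rintro _ ⟨p, hp, rfl⟩
    rw [hres p hp]
    exact hgr p.1 (hG2 p hp).1
  · refine Tn.mono hRv3' ?_
    rintro _ ⟨p, hp, hp0, rfl⟩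
    rw [hval p hp hp0]
    exact hgv p.1 (hG2 p hp).1
  · intro _ p hp hp0 k hk δ hδ
    obtain ⟨z, hz, hz0, hzv⟩ := hAp p.1 (hG2 p hp).1 hp0 (k : ℤ) (by exact_mod_cast hk) δ
      (by rw [natCast_zsmul]; exact hδ)
    obtain ⟨y, hy⟩ := hG3 z hz
    exact ⟨(z, y), hy, hz0, hzv⟩

end

end Pool.Agent.Lib.MP_65f174_lc.AKE
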