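import Pool.Agent.Lib.MP_65f174_lc.AKE.Syn

set_option autoImplicit false

/-!
# Languages of rings, ordered abelian groups and valued fields

Valued fields are three-sorted structures: field sort and residue field sort in the language of
rings, value group sort `G ∪ {∞}` in the language of ordered abelian groups with `∞`, the valuation
and the residue map (extended by `0` outside the valuation ring).
-/

namespace Pool.Agent.Lib.MP_65f174_lc.AKE

universe u

/-! ### The language of rings -/

/-- Terms of the language of rings `{0, 1, +, -, ·}` in `a` variables. -/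
inductive RingTm (a : ℕ) : Type
  | var : Fin a → RingTm a
  | zero : RingTm a
  | one : RingTm a
  | neg : RingTm a → RingTm a
  | add : RingTm a → RingTm a → RingTm a
  | mul : RingTm a → RingTm a → RingTm a

/-- Quantifier-free formulas of the language of rings in `a` variables. -/
inductive RingQF (a : ℕ) : Type
  | eq : RingTm a → RingTm a → RingQF a
  | not : RingQF a → RingQF a
  | and : RingQF a → RingQF a → RingQF a
  | or : RingQF a → RingQF a → RingQF a

/-- Value of a ring term. -/
def RingTm.eval {R : Type u} [CommRing R] {a : ℕ} (e : Fin a → R) : RingTm a → R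
  | .var i => e i
  | .zero => 0
  | .one => 1
  | .neg t => -(t.eval e)
  | .add t s => t.eval e + s.eval e
  | .mul t s => t.eval e * s.eval e

/-- Truth of a quantifier-free ring formula. -/
def RingQF.Holds {R : Type u} [CommRing R] {a : ℕ} (e : Fin a → R) : RingQF a → Prop
  | .eq t s => t.eval e = s.eval e
  | .not φ => ¬ φ.Holds e
  | .and φ ψ => φ.Holds e ∧ ψ.Holds e
  | .or φ ψ => φ.Holds e ∨ ψ.Holds e

/-! ### The language of ordered abelian groups -/

/-- Terms of the language `{0, +, <}` in `a` variables. -/
inductive OagTm (a : ℕ) : Type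
  | var : Fin a → OagTm a
  | zero : OagTm a
  | add : OagTm a → OagTm a → OagTm a

/-- Quantifier-free formulas of the language `{0, +, <}` in `a` variables. -/
inductive OagQF (a : ℕ) : Type
  | eq : OagTm a → OagTm a → OagQF a
  | lt : OagTm a → OagTm a → OagQF a
  | not : OagQF a → OagQF a
  | and : OagQF a → OagQF a → OagQF a
  | or : OagQF a → OagQF a → OagQF a

/-- Value of a term of the language of ordered abelian groups. -/
def OagTm.eval {G : Type u} [AddCommGroup G] {a : ℕ} (e : Fin a → G) : OagTm a → G
  | .var i => e i
  | .zero => 0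
  | .add t s => t.eval e + s.eval e

/-- Truth of a quantifier-free formula of the language of ordered abelian groups. -/
def OagQF.Holds {G : Type u} [AddCommGroup G] [LinearOrder G] {a : ℕ} (e : Fin a → G) :
    OagQF a → Prop
  | .eq t s => t.eval e = s.eval e
  | .lt t s => t.eval e < s.eval e
  | .not φ => ¬ φ.Holds e
  | .and φ ψ => φ.Holds e ∧ ψ.Holds e
  | .or φ ψ => φ.Holds e ∨ ψ.Holds e

/-! ### The three-sorted language of valued fields -/

/-- Terms of the residue field sort, in `a` field and `b` residue variables: language of rings and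
the residue map applied to terms of the field sort. -/
inductive ResTm (a b : ℕ) : Type
  | var : Fin b → ResTm a b
  | zero : ResTm a b
  | one : ResTm a b
  | neg : ResTm a b → ResTm a b
  | add : ResTm a b → ResTm a b → ResTm a b
  | mul : ResTm a b → ResTm a b → ResTm a b
  | res : RingTm a → ResTm a b

/-- Terms of the value group sort, in `a` field and `c` value group variables: `0`, `∞`, `-`, `+`,
and the valuation applied to terms of the field sort. -/
inductive ValTm (a c : ℕ) : Type
  | var : Fin c → ValTm a c
  | zero : ValTm a c
  | infty : ValTm a c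
  | neg : ValTm a c → ValTm a c
  | add : ValTm a c → ValTm a c → ValTm a c
  | val : RingTm a → ValTm a c

/-- Quantifier-free formulas of the three-sorted language, in `a` field, `b` residue and `c` value
group variables. -/
inductive ValQF (a b c : ℕ) : Type
  | eqF : RingTm a → RingTm a → ValQF a b c
  | eqR : ResTm a b → ResTm a b → ValQF a b c
  | eqG : ValTm a c → ValTm a c → ValQF a b c
  | ltG : ValTm a c → ValTm a c → ValQF a b c
  | not : ValQF a b c → ValQF a b c
  | and : ValQF a b c → ValQF a b c → ValQF a b c
  | or : ValQF a b c → ValQF a b c → ValQF a b c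

/-- Prenex formulas of the three-sorted language; quantifiers range over any of the three
sorts. -/
inductive ValPrenex : ℕ → ℕ → ℕ → Type
  | qf {a b c : ℕ} : ValQF a b c → ValPrenex a b c
  | exF {a b c : ℕ} : ValPrenex (a + 1) b c → ValPrenex a b c
  | exR {a b c : ℕ} : ValPrenex a (b + 1) c → ValPrenex a b c
  | exG {a b c : ℕ} : ValPrenex a b (c + 1) → ValPrenex a b c
  | allF {a b c : ℕ} : ValPrenex (a + 1) b c → ValPrenex a b c
  | allR {a b c : ℕ} : ValPrenex a (b + 1) c → ValPrenex a b c
  | allG {a b c : ℕ} : ValPrenex a b (c + 1) → ValPrenex a b c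

section

variable {K k G : Type u} [Field K] [Field k] [AddCommGroup G] [LinearOrder G]

/-- Value of a residue term, for the residue map `res`. -/
def ResTm.eval (res : K → k) {a b : ℕ} (e : Fin a → K) (r : Fin b → k) : ResTm a b → k
  | .var i => r i
  | .zero => 0
  | .one => 1
  | .neg t => -(t.eval res e r)
  | .add t s => t.eval res e r + s.eval res e r
  | .mul t s => t.eval res e r * s.eval res e r
  | .res t => res (t.eval e)

/-- Value of a term of the value group sort `G ∪ {∞}`, for the valuation `v`; here `-∞ = ∞`. -/
def ValTm.eval (v : K → WithTop G) {a c : ℕ} (e : Fin a → K) (g : Fin c → WithTop G) :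
    ValTm a c → WithTop G
  | .var i => g i
  | .zero => 0
  | .infty => ⊤
  | .neg t => (t.eval v e g).map (fun x => -x)
  | .add t s => t.eval v e g + s.eval v e g
  | .val t => v (t.eval e)

/-- Truth of a quantifier-free formula. -/
def ValQF.Holds (v : K → WithTop G) (res : K → k) {a b c : ℕ} (e : Fin a → K) (r : Fin b → k)
    (g : Fin c → WithTop G) : ValQF a b c → Prop
  | .eqF t s => t.eval e = s.eval e
  | .eqR t s => t.eval res e r = s.eval res e r
  | .eqG t s => t.eval v e g = s.eval v e g
  | .ltG t s => t.eval v e g < s.eval v e g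
  | .not φ => ¬ φ.Holds v res e r g
  | .and φ ψ => φ.Holds v res e r g ∧ ψ.Holds v res e r g
  | .or φ ψ => φ.Holds v res e r g ∨ ψ.Holds v res e r g

/-- Truth of a prenex formula. -/
def ValPrenex.Holds (v : K → WithTop G) (res : K → k) : {a b c : ℕ} → ValPrenex a b c →
    (Fin a → K) → (Fin b → k) → (Fin c → WithTop G) → Prop
  | _, _, _, .qf φ, e, r, g => φ.Holds v res e r g
  | _, _, _, .exF φ, e, r, g => ∃ x : K, φ.Holds v res (Fin.cons x e) r g
  | _, _, _, .exR φ, e, r, g => ∃ x : k, φ.Holds v res e (Fin.cons x r) g
  | _, _, _, .exG φ, e, r, g => ∃ x : WithTop G, φ.Holds v res e r (Fin.cons x g)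
  | _, _, _, .allF φ, e, r, g => ∀ x : K, φ.Holds v res (Fin.cons x e) r g
  | _, _, _, .allR φ, e, r, g => ∀ x : k, φ.Holds v res e (Fin.cons x r) g
  | _, _, _, .allG φ, e, r, g => ∀ x : WithTop G, φ.Holds v res e r (Fin.cons x g)

end

/-- The quantifier word of a prenex formula, outermost first; `true` is `∃`, `false` is `∀`. -/
def ValPrenex.word : {a b c : ℕ} → ValPrenex a b c → List Bool
  | _, _, _, .qf _ => []
  | _, _, _, .exF φ => true :: φ.word
  | _, _, _, .exR φ => true :: φ.word
  | _, _, _, .exG φ => true :: φ.word
  | _, _, _, .allF φ => false :: φ.word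
  | _, _, _, .allR φ => false :: φ.word
  | _, _, _, .allG φ => false :: φ.word

/-! ### Standard fragments -/

/-- The block pattern of the `n`-th standard fragment: `n` alternating quantifiers, the last one
existential (`true`): `∃`, `∀∃`, `∃∀∃`, ... -/
def pattern : ℕ → List Bool
  | 0 => []
  | n + 1 => (if n % 2 = 0 then true else false) :: pattern n

/-- The `n`-th standard fragment of the theory of the ring `R`. -/
def ringTh (n : ℕ) (R : Type u) [CommRing R] : Set (Prenex RingQF 0) :=
  {φ | HasPattern (pattern n) φ.word ∧ φ.Holds (fun _ θ e => θ.Holds e) (Fin.elim0 : Fin 0 → R)}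

/-- The `n`-th standard fragment of the theory of the ordered abelian group `G` with constants
`g` for `m` elements: sentences with `m` constants are formulas with `m` free variables. -/
def oagTh (n : ℕ) (G : Type u) [AddCommGroup G] [LinearOrder G] {m : ℕ} (g : Fin m → G) :
    Set (Prenex OagQF m) :=
  {φ | HasPattern (pattern n) φ.word ∧ φ.Holds (fun _ θ e => θ.Holds e) g}

/-! ### Valued fields -/

/-- A valued field: a field `K`, a linearly ordered abelian group `G` (the value group) and a
surjective (additive) valuation `v : K → G ∪ {∞}`. -/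
structure ValuedField where
  /-- the field -/
  K : Type u
  /-- the value group -/
  G : Type u
  [fieldK : Field K]
  [groupG : AddCommGroup G]
  [orderG : LinearOrder G]
  [orderedG : IsOrderedAddMonoid G]
  /-- the valuation -/
  v : AddValuation K (WithTop G)
  surj : ∀ g : G, ∃ x : K, v x = (g : WithTop G)

attribute [instance] ValuedField.fieldK ValuedField.groupG ValuedField.orderG
  ValuedField.orderedG

/-- The valuation ring `{x | v x ≥ 0}`. -/
def ValuedField.ring (F : ValuedField.{u}) : ValuationSubring F.K where
  carrier := {x | 0 ≤ F.v x}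
  mul_mem' {x y} hx hy := by
    change 0 ≤ F.v (x * y)
    rw [AddValuation.map_mul]
    exact add_nonneg hx hy
  one_mem' := by
    change 0 ≤ F.v 1
    rw [AddValuation.map_one]
  add_mem' {x y} hx hy := by
    change 0 ≤ F.v (x + y)
    exact le_trans (le_min hx hy) (AddValuation.map_add F.v x y)
  zero_mem' := by
    change 0 ≤ F.v 0
    rw [AddValuation.map_zero]
    exact le_top
  neg_mem' {x} hx := by
    change 0 ≤ F.v (-x)
    rw [AddValuation.map_neg]
    exact hx
  mem_or_inv_mem' x := by
    change 0 ≤ F.v x ∨ 0 ≤ F.v x⁻¹
    rcases eq_or_ne x 0 with rfl | hx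
    · left
      rw [AddValuation.map_zero]
      exact le_top
    · rcases le_total 0 (F.v x) with h | h
      · exact Or.inl h
      · right
        have h1 : F.v x + F.v x⁻¹ = 0 := by
          rw [← AddValuation.map_mul, mul_inv_cancel₀ hx, AddValuation.map_one]
        by_contra h2
        rw [not_le] at h2
        have h3 : F.v x + F.v x⁻¹ < 0 := by
          calc F.v x + F.v x⁻¹ ≤ 0 + F.v x⁻¹ := by gcongr
            _ = F.v x⁻¹ := zero_add _
            _ < 0 := h2
        exact absurd h1 h3.ne

/-- The residue field. -/
abbrev ValuedField.Res (F : ValuedField.{u}) : Type u := IsLocalRing.ResidueField F.ring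

open Classical in
/-- The residue map, extended by `0` outside the valuation ring. -/
noncomputable def ValuedField.res (F : ValuedField.{u}) (x : F.K) : F.Res :=
  if h : x ∈ F.ring then IsLocalRing.residue F.ring ⟨x, h⟩ else 0

/-- A uniformizer: an element of smallest positive (finite) value. -/
def ValuedField.IsUniformizer (F : ValuedField.{u}) (π : F.K) : Prop :=
  0 < F.v π ∧ F.v π ≠ ⊤ ∧ ∀ x : F.K, 0 < F.v x → F.v π ≤ F.v x

/-- The `n`-th standard fragment of the theory of the valued field `F` with constants `e` for `m`
elements of the field: sentences with `m` constants are formulas with `m` free variables. -/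
def valTh (n : ℕ) (F : ValuedField.{u}) {m : ℕ} (e : Fin m → F.K) : Set (ValPrenex m 0 0) :=
  {φ | HasPattern (pattern n) φ.word ∧ φ.Holds F.v F.res e Fin.elim0 Fin.elim0}

end Pool.Agent.Lib.MP_65f174_lc.AKE
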