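import Pool.Agent.Lib.MP_65f174_lc.AKE.Defs

set_option autoImplicit false

/-!
# Groups elementarily equivalent to the integers
-/

namespace Pool.Agent.Lib.MP_65f174_lc.AKE

universe u

/-- A `ℤ`-group: an ordered abelian group with the same (prenex) sentences as `(ℤ, +, <)`. -/
def IsZGroup (G : Type u) [AddCommGroup G] [LinearOrder G] : Prop :=
  ∀ φ : Prenex OagQF 0, φ.Holds (fun _ θ e => θ.Holds e) (Fin.elim0 : Fin 0 → G) ↔
    φ.Holds (fun _ θ e => θ.Holds e) (Fin.elim0 : Fin 0 → ℤ)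

end Pool.Agent.Lib.MP_65f174_lc.AKE
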