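import Pool.Agent.Lib.MP_65f174_lc.AKE.Transfer
import Pool.Agent.Lib.MP_65f174_lc.AKE.ZGrp

set_option autoImplicit false

/-!
# Final form of the transfer theorems
-/

namespace Pool.Agent.Lib.MP_65f174_lc.AKE

universe u

/-! ### Groups elementarily equivalent to the integers -/

theorem exists_lev {F : ℕ → Type} {a : ℕ} (φ : Prenex F a) : ∃ n, ∀ b, Lev b n φ := by
  induction φ with
  | qf θ => exact ⟨0, fun b => Lev.qf b 0 θ⟩
  | ex φ ih =>
    obtain ⟨n, hn⟩ := ih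
    refine ⟨n + 2, fun b => ?_⟩
    cases b with
    | true => exact Lev.ex _ ((hn true).succ.succ)
    | false => exact Lev.sw _ _ (Lev.ex _ (hn true).succ)
  | all φ ih =>
    obtain ⟨n, hn⟩ := ih
    refine ⟨n + 2, fun b => ?_⟩
    cases b with
    | false => exact Lev.all _ ((hn false).succ.succ)
    | true => exact Lev.sw _ _ (Lev.all _ (hn false).succ)

/-- the formula saying that the variable is the smallest positive element -/
def muF : Prenex OagQF 1 :=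
  .all (.qf (.and (.lt .zero (.var 1)) (.not (.and (.lt .zero (.var 0)) (.lt (.var 0) (.var 1))))))

lemma muF_iff {G : Type u} [AddCommGroup G] [LinearOrder G] (x : G) :
    muF.Holds (oagSem G).H ![x] ↔ 0 < x ∧ ∀ y, 0 < y → x ≤ y := by
  constructor
  · intro h
    refine ⟨(h 0).1, fun y hy => ?_⟩
    by_contra hcon
    rw [not_le] at hcon
    exact (h y).2 ⟨hy, hcon⟩
  · rintro ⟨h1, h2⟩ y
    refine ⟨h1, ?_⟩
    rintro ⟨h3, h4⟩
    exact absurd (h2 y h3) (not_le.mpr h4)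

/-- `ℤ`-groups have the same theory with a constant for the smallest positive element. -/
theorem zgroup_transfer {G H : Type u} [AddCommGroup G] [LinearOrder G] [AddCommGroup H]
    [LinearOrder H] (hG : IsZGroup G) (hH : IsZGroup H) {g : G} {h : H} (hg : 0 < g)
    (hgmin : ∀ y, 0 < y → g ≤ y) (hh : 0 < h) (hhmin : ∀ y, 0 < y → h ≤ y)
    (φ : Prenex OagQF 1) (hφ : φ.Holds (oagSem G).H ![g]) : φ.Holds (oagSem H).H ![h] := by
  obtain ⟨n, hn⟩ := exists_lev φ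
  obtain ⟨m, hm⟩ := exists_lev muF
  obtain ⟨χ, _, h2⟩ := Lev.conj (S := oagSyn) ((hn true).mono (le_max_left n m))
    ((hm true).mono (le_max_right n m))
  have h3 : (Prenex.ex χ : Prenex OagQF 0).Holds (oagSem G).H (Fin.elim0 : Fin 0 → G) := by
    refine ⟨g, ?_⟩
    have e : (Fin.cons g (Fin.elim0 : Fin 0 → G) : Fin 1 → G) = ![g] := by
      funext i; fin_cases i; rfl
    rw [e, h2 G ⟨0⟩ (oagSem G)]
    exact ⟨hφ, (muF_iff g).mpr ⟨hg, hgmin⟩⟩
  have h4 : (Prenex.ex χ : Prenex OagQF 0).Holds (oagSem H).H (Fin.elim0 : Fin 0 → H) :=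
    (hH _).mpr ((hG _).mp h3)
  obtain ⟨x, hx⟩ := h4
  have e : (Fin.cons x (Fin.elim0 : Fin 0 → H) : Fin 1 → H) = ![x] := by
    funext i; fin_cases i; rfl
  rw [e, h2 H ⟨0⟩ (oagSem H)] at hx
  obtain ⟨h5, h6⟩ := hx
  obtain ⟨h7, h8⟩ := (muF_iff x).mp h6
  have h9 : x = h := le_antisymm (h8 h hh) (hhmin x h7)
  rw [← h9]
  exact h5

/-! ### The theorems -/

/-- Transfer for every standard fragment. -/
theorem transfer_all (n : ℕ) (hn : 1 ≤ n) (K L : ValuedField.{u})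
    (hK : HenselianLocalRing K.ring) (hL : HenselianLocalRing L.ring) (hL0 : CharZero L.Res)
    (hres : ringTh n K.Res ⊆ ringTh n L.Res) (hval : oagTh n K.G ![] ⊆ oagTh n L.G ![]) :
    valTh n K ![] ⊆ valTh n L ![] := by
  rintro φ ⟨h1, h2⟩
  exact ⟨h1, transfer (E₀ := K.toVF) (F₀ := L.toVF) hn (K.toVF_hens hK) (L.toVF_hens hL) hL0
    hres hval φ h1 h2⟩

lemma ValuedField.IsUniformizer.spec {F : ValuedField.{u}} {π : F.K} (h : F.IsUniformizer π) :
    π ≠ 0 ∧ 0 < F.toVF.vG π ∧ ∀ δ : F.G, 0 < δ → F.toVF.vG π ≤ δ := by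
  obtain ⟨h1, h2, h3⟩ := h
  have h0 : π ≠ 0 := by
    rintro rfl
    exact h2 (AddValuation.map_zero _)
  obtain ⟨g, hg⟩ : ∃ g : F.G, g = F.toVF.vG π := ⟨_, rfl⟩
  have hs : F.v π = (g : WithTop F.G) := by
    rw [hg]; exact F.toVF.vG_spec h0
  rw [← hg]
  refine ⟨h0, ?_, ?_⟩
  · rw [hs, ← WithTop.coe_zero, WithTop.coe_lt_coe] at h1
    exact h1
  · intro δ hδ
    obtain ⟨x, hx⟩ := F.surj δ
    have h4 := h3 x (by
      rw [hx, ← WithTop.coe_zero, WithTop.coe_lt_coe]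
      exact hδ)
    rw [hs, hx, WithTop.coe_le_coe] at h4
    exact h4

/-- Transfer with uniformizers, for every standard fragment. -/
theorem transfer_uniformizer (n : ℕ) (hn : 1 ≤ n) (K L : ValuedField.{u})
    (hK : HenselianLocalRing K.ring) (hL : HenselianLocalRing L.ring) (hL0 : CharZero L.Res)
    (πK : K.K) (πL : L.K) (hπK : K.IsUniformizer πK) (hπL : L.IsUniformizer πL)
    (hres : ringTh n K.Res ⊆ ringTh n L.Res)
    (gK : K.G) (gL : L.G) (hgK : K.v πK = gK) (hgL : L.v πL = gL)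
    (hval : oagTh n K.G ![gK] ⊆ oagTh n L.G ![gL]) :
    valTh n K ![πK] ⊆ valTh n L ![πL] := by
  rintro φ ⟨h1, h2⟩
  obtain ⟨k1, k2, k3⟩ := hπK.spec
  obtain ⟨l1, l2, l3⟩ := hπL.spec
  have e1 : K.toVF.vG πK = gK := K.toVF.vG_eq hgK
  have e2 : L.toVF.vG πL = gL := L.toVF.vG_eq hgL
  refine ⟨h1, transfer_unif (E₀ := K.toVF) (F₀ := L.toVF) hn (K.toVF_hens hK) (L.toVF_hens hL)
    hL0 hres k1 l1 k2 l2 k3 l3 ?_ φ h1 h2⟩
  rw [e1, e2]
  exact hval

/-- Transfer with uniformizers when both value groups are `ℤ`-groups. -/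
theorem transfer_zgroup (n : ℕ) (hn : 1 ≤ n) (K L : ValuedField.{u})
    (hK : HenselianLocalRing K.ring) (hL : HenselianLocalRing L.ring) (hL0 : CharZero L.Res)
    (πK : K.K) (πL : L.K) (hπK : K.IsUniformizer πK) (hπL : L.IsUniformizer πL)
    (hres : ringTh n K.Res ⊆ ringTh n L.Res) (hKZ : IsZGroup K.G) (hLZ : IsZGroup L.G) :
    valTh n K ![πK] ⊆ valTh n L ![πL] := by
  obtain ⟨k1, k2, k3⟩ := hπK.spec
  obtain ⟨l1, l2, l3⟩ := hπL.spec
  refine transfer_uniformizer n hn K L hK hL hL0 πK πL hπK hπL hres (K.toVF.vG πK)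
    (L.toVF.vG πL) (K.toVF.vG_spec k1) (L.toVF.vG_spec l1) ?_
  rintro φ ⟨h1, h2⟩
  exact ⟨h1, zgroup_transfer hKZ hLZ k2 k3 l2 l3 φ h2⟩

end Pool.Agent.Lib.MP_65f174_lc.AKE
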