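import Pool.Agent.Lib.MP_65f174_lc.Mg.G001

set_option autoImplicit false

/-!
# Maps of leading terms
-/

namespace Pool.Agent.Lib.MP_65f174_lc.AKE

universe u

open Polynomial

/-- A map from a subfield `A` of `E` to `F` which is multiplicative up to equality of leading
terms and compatible with the residue fields. -/
structure LiftData (E F : VF.{u}) (A : Subfield E.K) where
  /-- the map -/
  Y : E.K → F.K
  /-- the map of residue fields -/
  g : E.k → F.k
  zero : Y 0 = 0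
  mul : ∀ x ∈ A, ∀ y ∈ A, F.sim (Y (x * y)) (Y x * Y y)
  nonneg : ∀ x ∈ A, 0 ≤ E.v x ↔ 0 ≤ F.v (Y x)
  res_eq : ∀ x ∈ A, 0 ≤ E.v x → F.res (Y x) = g (E.res x)
  g_add : ∀ x ∈ A, ∀ y ∈ A, 0 ≤ E.v x → 0 ≤ E.v y →
    g (E.res x + E.res y) = g (E.res x) + g (E.res y)
  g_one : g 1 = 1
  g_inj : ∀ x ∈ A, 0 ≤ E.v x → g (E.res x) = 0 → E.res x = 0

namespace LiftData

variable {E F : VF.{u}} {A : Subfield E.K} (D : LiftData E F A)

lemma g_zero : D.g 0 = 0 := by
  have h0 : 0 ≤ E.v (0 : E.K) := by rw [AddValuation.map_zero]; exact le_top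
  have := D.g_add 0 A.zero_mem 0 A.zero_mem h0 h0
  rw [E.res_zero, add_zero] at this
  exact left_eq_add.mp this

lemma Y_one : F.sim (D.Y 1) 1 := by
  have h1 : 0 ≤ E.v (1 : E.K) := by rw [AddValuation.map_one]
  rw [VF.sim_one_iff]
  refine ⟨(D.nonneg 1 A.one_mem).mp h1, ?_⟩
  rw [D.res_eq 1 A.one_mem h1, E.res_one, D.g_one]

lemma Y_ne_zero {x : E.K} (hx : x ∈ A) (h : x ≠ 0) : D.Y x ≠ 0 := by
  intro h0
  have h1 := D.mul x hx x⁻¹ (A.inv_mem hx)
  rw [h0, zero_mul, VF.sim_zero_right, mul_inv_cancel₀ h] at h1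
  have := D.Y_one
  rw [h1, VF.sim_zero_left] at this
  exact one_ne_zero this

lemma Y_div {x y : E.K} (hx : x ∈ A) (hy : y ∈ A) (h : y ≠ 0) :
    F.sim (D.Y (x / y)) (D.Y x / D.Y y) := by
  have h1 := D.mul (x / y) (A.div_mem hx hy) y hy
  rw [div_mul_cancel₀ x h] at h1
  have h2 := VF.sim_symm (VF.sim_div h1 (VF.sim_refl (D.Y y)))
  rwa [mul_div_cancel_right₀ _ (D.Y_ne_zero hy h)] at h2

lemma v_le {x y : E.K} (hx : x ∈ A) (hy : y ∈ A) :
    E.v x ≤ E.v y ↔ F.v (D.Y x) ≤ F.v (D.Y y) := by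
  by_cases h : x = 0
  · subst h
    rw [D.zero, AddValuation.map_zero, AddValuation.map_zero, top_le_iff, top_le_iff,
      E.v_top_iff, F.v_top_iff]
    constructor
    · rintro rfl; exact D.zero
    · intro h1; by_contra h2; exact D.Y_ne_zero hy h2 h1
  · rw [← E.v_div_nonneg h, ← F.v_div_nonneg (D.Y_ne_zero hx h), D.nonneg _ (A.div_mem hy hx),
      VF.sim_val (D.Y_div hy hx h)]

lemma v_lt {x y : E.K} (hx : x ∈ A) (hy : y ∈ A) :
    E.v x < E.v y ↔ F.v (D.Y x) < F.v (D.Y y) := by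
  rw [← not_le, ← not_le, D.v_le hy hx]

/-- `z` is residually compatible with the integral element `x` of `A` -/
def rc (x : E.K) (z : F.K) : Prop :=
  x ∈ A ∧ 0 ≤ E.v x ∧ 0 ≤ F.v z ∧ F.res z = D.g (E.res x)

variable {D}

lemma rc_of_sim {x : E.K} {z : F.K} (hx : x ∈ A) (h0 : 0 ≤ E.v x) (h : F.sim z (D.Y x)) :
    D.rc x z := by
  have h1 := (D.nonneg x hx).mp h0
  refine ⟨hx, h0, by rw [VF.sim_val h]; exact h1, ?_⟩
  rw [VF.res_of_sim h1 h, D.res_eq x hx h0]

lemma rc_zero : D.rc 0 0 := by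
  have h1 : 0 ≤ E.v (0 : E.K) := by rw [AddValuation.map_zero]; exact le_top
  have h2 : 0 ≤ F.v (0 : F.K) := by rw [AddValuation.map_zero]; exact le_top
  refine ⟨A.zero_mem, h1, h2, ?_⟩
  rw [F.res_zero, E.res_zero, D.g_zero]

lemma rc_add {x y : E.K} {z w : F.K} (h1 : D.rc x z) (h2 : D.rc y w) :
    D.rc (x + y) (z + w) := by
  obtain ⟨a1, a2, a3, a4⟩ := h1
  obtain ⟨b1, b2, b3, b4⟩ := h2
  refine ⟨A.add_mem a1 b1, AddValuation.map_le_add _ a2 b2, AddValuation.map_le_add _ a3 b3, ?_⟩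
  rw [F.res_add _ _ a3 b3, a4, b4, E.res_add _ _ a2 b2, D.g_add _ a1 _ b1 a2 b2]

lemma rc_sum {ι : Type*} (s : Finset ι) {x : ι → E.K} {z : ι → F.K}
    (h : ∀ i ∈ s, D.rc (x i) (z i)) : D.rc (∑ i ∈ s, x i) (∑ i ∈ s, z i) := by
  classical
  induction s using Finset.induction_on with
  | empty => rw [Finset.sum_empty, Finset.sum_empty]; exact rc_zero
  | insert a s ha ih =>
    rw [Finset.sum_insert ha, Finset.sum_insert ha]
    exact rc_add (h a (Finset.mem_insert_self a s))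
      (ih fun i hi => h i (Finset.mem_insert_of_mem hi))

lemma rc_mul_nat {x : E.K} {z : F.K} (h : D.rc x z) (n : ℕ) : D.rc (x * n) (z * n) := by
  induction n with
  | zero => simp only [Nat.cast_zero, mul_zero]; exact rc_zero
  | succ n ih =>
    have e1 : x * ((n + 1 : ℕ) : E.K) = x * n + x := by push_cast; ring
    have e2 : z * ((n + 1 : ℕ) : F.K) = z * n + z := by push_cast; ring
    rw [e1, e2]
    exact rc_add ih h

lemma rc_pos {x : E.K} {z : F.K} (h : D.rc x z) (hx : 0 < E.v x) : 0 < F.v z := by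
  obtain ⟨a1, a2, a3, a4⟩ := h
  rw [← F.res_zero_iff z a3, a4, (E.res_zero_iff x a2).mpr hx, D.g_zero]

lemma rc_unit {x : E.K} {z : F.K} (h : D.rc x z) (hx : E.v x = 0) : F.v z = 0 := by
  obtain ⟨a1, a2, a3, a4⟩ := h
  refine F.v_eq_zero_of_res a3 ?_
  rw [a4]
  intro h0
  exact E.res_ne_zero hx (D.g_inj x a1 a2 h0)

/-- Sums without cancellation are compatible with the map of leading terms. -/
lemma sum_sim {ι : Type*} (s : Finset ι) {x : ι → E.K} {z : ι → F.K}
    (hx : ∀ i ∈ s, x i ∈ A) (hz : ∀ i ∈ s, F.sim (z i) (D.Y (x i)))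
    (hmin : ∀ i ∈ s, E.v (∑ i ∈ s, x i) ≤ E.v (x i)) :
    F.sim (∑ i ∈ s, z i) (D.Y (∑ i ∈ s, x i)) := by
  obtain ⟨X, hX⟩ : ∃ X, X = ∑ i ∈ s, x i := ⟨_, rfl⟩
  have hXA : X ∈ A := by rw [hX]; exact A.sum_mem hx
  rw [← hX] at hmin ⊢
  by_cases h0 : X = 0
  · have h1 : ∀ i ∈ s, z i = 0 := by
      intro i hi
      have h2 := hmin i hi
      rw [h0, AddValuation.map_zero, top_le_iff, E.v_top_iff] at h2
      have h3 := hz i hi
      rw [h2, D.zero, VF.sim_zero_right] at h3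
      exact h3
    rw [Finset.sum_eq_zero h1, h0, D.zero]
    exact VF.sim_refl _
  · have hY := D.Y_ne_zero hXA h0
    have h1 : ∀ i ∈ s, D.rc (x i / X) (z i / D.Y X) := by
      intro i hi
      refine rc_of_sim (A.div_mem (hx i hi) hXA) ((E.v_div_nonneg h0).mpr (hmin i hi)) ?_
      exact VF.sim_trans (VF.sim_div (hz i hi) (VF.sim_refl _))
        (VF.sim_symm (D.Y_div (hx i hi) hXA h0))
    have h2 := rc_sum s h1
    rw [← Finset.sum_div, ← Finset.sum_div, ← hX, div_self h0] at h2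
    obtain ⟨_, _, a3, a4⟩ := h2
    rw [VF.sim_iff_div hY, VF.sim_one_iff]
    refine ⟨a3, ?_⟩
    rw [a4, E.res_one, D.g_one]

lemma add_sim {x y : E.K} {z w : F.K} (hx : x ∈ A) (hy : y ∈ A) (hz : F.sim z (D.Y x))
    (hw : F.sim w (D.Y y)) (h1 : E.v (x + y) ≤ E.v x) (h2 : E.v (x + y) ≤ E.v y) :
    F.sim (z + w) (D.Y (x + y)) := by
  have := sum_sim (D := D) (Finset.univ : Finset Bool) (x := fun b => if b then x else y)
    (z := fun b => if b then z else w) (by rintro (_ | _) _ <;> simp [hx, hy])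
    (by rintro (_ | _) _ <;> simp [hz, hw]) (by rintro (_ | _) _ <;> simp [h1, h2])
  simpa using this

lemma pow_sim {x : E.K} (hx : x ∈ A) (n : ℕ) : F.sim (D.Y (x ^ n)) (D.Y x ^ n) := by
  induction n with
  | zero => rw [pow_zero, pow_zero]; exact D.Y_one
  | succ n ih =>
    rw [pow_succ, pow_succ]
    exact VF.sim_trans (D.mul _ (A.pow_mem hx n) _ hx) (VF.sim_mul ih (VF.sim_refl _))

end LiftData

/-- residue of a value of an integral polynomial -/
lemma VF.res_eval {F : VF.{u}} {p : F.K[X]} (hp : VF.IntC p) {y : F.K} (hy : 0 ≤ F.v y) :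
    F.res (p.eval y) = ∑ i ∈ Finset.range (p.natDegree + 1), F.res (p.coeff i) * F.res y ^ i := by
  have hpow : ∀ i, F.res (y ^ i) = F.res y ^ i := by
    intro i
    induction i with
    | zero => rw [pow_zero, pow_zero, F.res_one]
    | succ i ih => rw [pow_succ, pow_succ, F.res_mul _ _ (VF.v_pow_nonneg hy i) hy, ih]
  rw [eval_eq_sum_range, F.res_sum _ _ fun i _ => VF.v_mul_nonneg (hp i) (VF.v_pow_nonneg hy i)]
  refine Finset.sum_congr rfl fun i _ => ?_
  rw [F.res_mul _ _ (hp i) (VF.v_pow_nonneg hy i), hpow]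

/-! ### Graphs -/

section graph

variable {E F : VF.{u}} {A : Subfield E.K} (D : LiftData E F A)

/-- the graph `G` is compatible with the map of leading terms -/
def GoodG (G : Subring (E.K × F.K)) : Prop :=
  ∀ p ∈ G, p.1 ∈ A ∧ F.sim p.2 (D.Y p.1)

variable {D}

lemma GoodG.zero {G : Subring (E.K × F.K)} (h : GoodG D G) {y : F.K}
    (hy : ((0 : E.K), y) ∈ G) : y = 0 := by
  have := (h _ hy).2
  rw [D.zero, VF.sim_zero_right] at this
  exact this

lemma GoodG.func {G : Subring (E.K × F.K)} (h : GoodG D G) {x : E.K} {y y' : F.K}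
    (hy : (x, y) ∈ G) (hy' : (x, y') ∈ G) : y = y' := by
  have h1 := G.sub_mem hy hy'
  rw [Prod.mk_sub_mk, sub_self] at h1
  exact sub_eq_zero.mp (h.zero h1)

lemma GoodG.countable {G : Subring (E.K × F.K)} (h : GoodG D G) (hA : (A : Set E.K).Countable) :
    (G : Set (E.K × F.K)).Countable := by
  have : Set.InjOn Prod.fst (G : Set (E.K × F.K)) := by
    rintro ⟨x, y⟩ hx ⟨x', y'⟩ hx' hxx
    simp only at hxx
    subst hxx
    rw [h.func hx hx']
  refine Set.countable_of_injective_of_countable_image this (hA.mono ?_)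
  rintro _ ⟨p, hp, rfl⟩
  exact (h p hp).1

/-- Zorn's lemma -/
lemma exists_maximal {G₀ : Subring (E.K × F.K)} (h : GoodG D G₀) :
    ∃ G, G₀ ≤ G ∧ GoodG D G ∧ ∀ G', G ≤ G' → GoodG D G' → G' ≤ G := by
  obtain ⟨G, h1, h2⟩ := zorn_le_nonempty₀ {G : Subring (E.K × F.K) | GoodG D G} (by
    intro c hc hchain y hy
    refine ⟨sSup c, ?_, fun z hz => le_sSup hz⟩
    intro p hp
    rw [Subring.mem_sSup_of_directedOn ⟨y, hy⟩ hchain.directedOn] at hp
    obtain ⟨G, hG, hpG⟩ := hp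
    exact hc hG p hpG) G₀ h
  exact ⟨G, h1, h2.prop, fun G' h3 h4 => h2.le_of_ge h4 h3⟩

/-- adjoining an element to a graph -/
noncomputable def adjG (G : Subring (E.K × F.K)) (γ : E.K × F.K) : Subring (E.K × F.K) :=
  (eval₂RingHom G.subtype γ).range

lemma le_adjG (G : Subring (E.K × F.K)) (γ : E.K × F.K) : G ≤ adjG G γ := by
  intro p hp
  exact ⟨C ⟨p, hp⟩, by simp⟩

lemma mem_adjG (G : Subring (E.K × F.K)) (γ : E.K × F.K) : γ ∈ adjG G γ := ⟨X, by simp⟩

/-- first coordinates of the coefficients -/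
noncomputable def map1 {G : Subring (E.K × F.K)} (p : G[X]) : E.K[X] :=
  p.map ((RingHom.fst E.K F.K).comp G.subtype)

/-- second coordinates of the coefficients -/
noncomputable def map2 {G : Subring (E.K × F.K)} (p : G[X]) : F.K[X] :=
  p.map ((RingHom.snd E.K F.K).comp G.subtype)

lemma eval_pair {G : Subring (E.K × F.K)} (p : G[X]) (γ : E.K × F.K) :
    eval₂ G.subtype γ p = ((map1 p).eval γ.1, (map2 p).eval γ.2) := by
  unfold map1 map2
  rw [eval_map, eval_map]
  ext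
  · have := hom_eval₂ p G.subtype (RingHom.fst E.K F.K) γ
    exact this
  · have := hom_eval₂ p G.subtype (RingHom.snd E.K F.K) γ
    exact this

lemma map1_coeff {G : Subring (E.K × F.K)} (p : G[X]) (i : ℕ) :
    (map1 p).coeff i = (p.coeff i : E.K × F.K).1 := by
  unfold map1; rw [coeff_map]; rfl

lemma map2_coeff {G : Subring (E.K × F.K)} (p : G[X]) (i : ℕ) :
    (map2 p).coeff i = (p.coeff i : E.K × F.K).2 := by
  unfold map2; rw [coeff_map]; rfl

lemma taylor_map' {R S : Type*} [CommRing R] [CommRing S] (f : R →+* S) (p : R[X]) (r : R) :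
    (taylor r p).map f = taylor (f r) (p.map f) := by
  rw [taylor_apply, taylor_apply, Polynomial.map_comp]
  simp

/-- the coefficients of the Taylor expansions at `c` form a pair in the graph -/
lemma taylor_pair {G : Subring (E.K × F.K)} (p : G[X]) (c : E.K × F.K) (hc : c ∈ G) (j : ℕ) :
    ((taylor c.1 (map1 p)).coeff j, (taylor c.2 (map2 p)).coeff j) ∈ G := by
  have e1 : (taylor c.1 (map1 p)).coeff j = ((taylor (⟨c, hc⟩ : G) p).coeff j : E.K × F.K).1 := by
    rw [← map1_coeff]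
    unfold map1
    rw [taylor_map']
    rfl
  have e2 : (taylor c.2 (map2 p)).coeff j = ((taylor (⟨c, hc⟩ : G) p).coeff j : E.K × F.K).2 := by
    rw [← map2_coeff]
    unfold map2
    rw [taylor_map']
    rfl
  rw [e1, e2]
  exact ((taylor (⟨c, hc⟩ : G) p).coeff j).2

/-- Values of polynomials without cancellation. -/
lemma eval_sim {G : Subring (E.K × F.K)} (h : GoodG D G) (p : G[X]) (c : E.K × F.K)
    (hc : c ∈ G) {α : E.K} {β : F.K} (hα : α ∈ A) (hβ : F.sim (β - c.2) (D.Y (α - c.1)))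
    (hNC : VF.NC (map1 p) c.1 α) : F.sim ((map2 p).eval β) (D.Y ((map1 p).eval α)) := by
  have hcA : c.1 ∈ A := (h c hc).1
  obtain ⟨N, hN⟩ : ∃ N, N = max (map1 p).natDegree (map2 p).natDegree + 1 := ⟨_, rfl⟩
  have e1 : (map1 p).eval α = ∑ j ∈ Finset.range N,
      (taylor c.1 (map1 p)).coeff j * (α - c.1) ^ j := by
    rw [← taylor_eval_sub c.1 (f := map1 p) α]
    refine eval_eq_sum_range' ?_ _
    rw [natDegree_taylor]; omega
  have e2 : (map2 p).eval β = ∑ j ∈ Finset.range N,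
      (taylor c.2 (map2 p)).coeff j * (β - c.2) ^ j := by
    rw [← taylor_eval_sub c.2 (f := map2 p) β]
    refine eval_eq_sum_range' ?_ _
    rw [natDegree_taylor]; omega
  have hmem : ∀ j, (taylor c.1 (map1 p)).coeff j ∈ A := fun j => (h _ (taylor_pair p c hc j)).1
  have hαc : α - c.1 ∈ A := A.sub_mem hα hcA
  have h1 : ∀ j ∈ Finset.range N, F.sim ((taylor c.2 (map2 p)).coeff j * (β - c.2) ^ j)
      (D.Y ((taylor c.1 (map1 p)).coeff j * (α - c.1) ^ j)) := by
    intro j _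
    refine VF.sim_trans (VF.sim_mul (h _ (taylor_pair p c hc j)).2 (VF.sim_pow hβ j)) ?_
    refine VF.sim_symm (VF.sim_trans (D.mul _ (hmem j) _ (A.pow_mem hαc j)) ?_)
    exact VF.sim_mul (VF.sim_refl _) (LiftData.pow_sim hαc j)
  have h2 := LiftData.sum_sim (D := D) (Finset.range N)
    (fun j _ => A.mul_mem (hmem j) (A.pow_mem hαc j)) h1 (fun j _ => by
      rw [← e1]; exact hNC j)
  rw [← e1, ← e2] at h2
  exact h2

end graph

end Pool.Agent.Lib.MP_65f174_lc.AKE
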