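import Pool.Agent.Lib.MP_65f174_lc.AKE.Lift

set_option autoImplicit false

/-!
# Lifting maps of residue fields and value groups to maps of leading terms
-/

namespace Pool.Agent.Lib.MP_65f174_lc.AKE

universe u

open Filter

namespace VF

variable (F : VF.{u})

/-- the value of a nonzero element -/
noncomputable def vG (x : F.K) : F.G := (F.v x).untopD 0

lemma vG_spec {x : F.K} (hx : x ≠ 0) : F.v x = (F.vG x : WithTop F.G) := by
  obtain ⟨g, hg⟩ := F.v_coe hx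
  unfold vG
  rw [hg, WithTop.untopD_coe]

lemma vG_eq {x : F.K} {g : F.G} (h : F.v x = (g : WithTop F.G)) : F.vG x = g := by
  unfold vG
  rw [h, WithTop.untopD_coe]

lemma vG_one : F.vG 1 = 0 := by
  refine F.vG_eq ?_
  rw [AddValuation.map_one, WithTop.coe_zero]

lemma vG_mul {x y : F.K} (hx : x ≠ 0) (hy : y ≠ 0) : F.vG (x * y) = F.vG x + F.vG y := by
  refine F.vG_eq ?_
  rw [AddValuation.map_mul, F.vG_spec hx, F.vG_spec hy, WithTop.coe_add]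

lemma vG_inv {x : F.K} (hx : x ≠ 0) : F.vG x⁻¹ = - F.vG x := by
  have h := F.vG_mul hx (inv_ne_zero hx)
  rw [mul_inv_cancel₀ hx, F.vG_one] at h
  exact (neg_eq_of_add_eq_zero_right h.symm).symm

lemma v_zero_iff {x : F.K} (hx : x ≠ 0) : F.v x = 0 ↔ F.vG x = 0 := by
  rw [F.vG_spec hx, ← WithTop.coe_zero, WithTop.coe_inj]

lemma vG_surj (g : F.G) : ∃ x, x ≠ 0 ∧ F.vG x = g := by
  obtain ⟨x, hx⟩ := F.surj g
  exact ⟨x, F.ne_zero_of_v hx, F.vG_eq hx⟩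

/-- the valuation as a homomorphism on the units -/
noncomputable def vHom : Additive F.Kˣ →+ F.G where
  toFun x := F.vG ((Additive.toMul x : F.Kˣ) : F.K)
  map_zero' := F.vG_one
  map_add' x y := F.vG_mul (Units.ne_zero _) (Units.ne_zero _)

/-- the valuation as a homomorphism on the units of a subfield -/
noncomputable def vHomA (A : Subfield F.K) : Additive Aˣ →+ F.G where
  toFun x := F.vG (((Additive.toMul x : Aˣ) : A) : F.K)
  map_zero' := F.vG_one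
  map_add' x y := F.vG_mul (by
    intro h; exact (Additive.toMul x : Aˣ).ne_zero (Subtype.ext h)) (by
    intro h; exact (Additive.toMul y : Aˣ).ne_zero (Subtype.ext h))

end VF

/-- Hypotheses for lifting maps of residue fields and value groups. -/
structure LiftHyp (E F : VF.{u}) (A : Subfield E.K) (G : Subring (E.K × F.K)) (gr : E.k → F.k)
    (gv : E.G → F.G) : Prop where
  GA : ∀ p ∈ G, p.1 ∈ A
  G0 : ∀ p ∈ G, p.1 = 0 ↔ p.2 = 0
  Ginv : ∀ p ∈ G, p⁻¹ ∈ G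
  r_add : ∀ x ∈ A, ∀ y ∈ A, 0 ≤ E.v x → 0 ≤ E.v y →
    gr (E.res x + E.res y) = gr (E.res x) + gr (E.res y)
  r_mul : ∀ x ∈ A, ∀ y ∈ A, 0 ≤ E.v x → 0 ≤ E.v y →
    gr (E.res x * E.res y) = gr (E.res x) * gr (E.res y)
  r_one : gr 1 = 1
  r_inj : ∀ x ∈ A, 0 ≤ E.v x → gr (E.res x) = 0 → E.res x = 0
  v_add : ∀ x ∈ A, ∀ y ∈ A, x ≠ 0 → y ≠ 0 →
    gv (E.vG x + E.vG y) = gv (E.vG x) + gv (E.vG y)
  v_le : ∀ x ∈ A, ∀ y ∈ A, x ≠ 0 → y ≠ 0 →
    (E.vG x ≤ E.vG y ↔ gv (E.vG x) ≤ gv (E.vG y))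
  Gr : ∀ p ∈ G, gr (E.res p.1) = F.res p.2
  Gv : ∀ p ∈ G, p.1 ≠ 0 → F.vG p.2 = gv (E.vG p.1)
  pure : ∀ p ∈ G, p.1 ≠ 0 → ∀ k : ℤ, k ≠ 0 → ∀ δ : E.G, E.vG p.1 = k • δ →
    ∃ q ∈ G, q.1 ≠ 0 ∧ E.vG q.1 = δ

/-- A multiplicative correspondence which respects residues and values. -/
structure Theta (E F : VF.{u}) (A : Subfield E.K) (G : Subring (E.K × F.K)) (gr : E.k → F.k)
    (gv : E.G → F.G) (T : Set (E.K × F.K)) : Prop where
  sub : ∀ p ∈ G, p.1 ≠ 0 → p ∈ T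
  mul : ∀ p ∈ T, ∀ q ∈ T, p * q ∈ T
  inv : ∀ p ∈ T, p⁻¹ ∈ T
  A : ∀ p ∈ T, p.1 ∈ A
  ne1 : ∀ p ∈ T, p.1 ≠ 0
  ne2 : ∀ p ∈ T, p.2 ≠ 0
  val : ∀ p ∈ T, F.vG p.2 = gv (E.vG p.1)
  res : ∀ p ∈ T, E.vG p.1 = 0 → F.res p.2 = gr (E.res p.1)

section

variable {E F : VF.{u}} {A : Subfield E.K} {G : Subring (E.K × F.K)} {gr : E.k → F.k}
  {gv : E.G → F.G}

lemma LiftHyp.gv_zero (H : LiftHyp E F A G gr gv) : gv 0 = 0 := by
  have := H.v_add 1 A.one_mem 1 A.one_mem one_ne_zero one_ne_zero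
  rw [E.vG_one, add_zero] at this
  exact left_eq_add.mp this

lemma LiftHyp.gr_zero (H : LiftHyp E F A G gr gv) : gr 0 = 0 := by
  have h0 : 0 ≤ E.v (0 : E.K) := by rw [AddValuation.map_zero]; exact le_top
  have := H.r_add 0 A.zero_mem 0 A.zero_mem h0 h0
  rw [E.res_zero, add_zero] at this
  exact left_eq_add.mp this

lemma LiftHyp.gv_inj (H : LiftHyp E F A G gr gv) {x : E.K} (hx : x ∈ A) (hx0 : x ≠ 0)
    (h : gv (E.vG x) = 0) : E.vG x = 0 := by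
  have h1 := H.v_le x hx 1 A.one_mem hx0 one_ne_zero
  have h2 := H.v_le 1 A.one_mem x hx one_ne_zero hx0
  rw [E.vG_one, H.gv_zero, h] at h1 h2
  exact le_antisymm (h1.mpr le_rfl) (h2.mpr le_rfl)

/-- the correspondence generated by the graph and the units -/
def Theta0 (A : Subfield E.K) (G : Subring (E.K × F.K)) (gr : E.k → F.k) :
    Set (E.K × F.K) :=
  {p | ∃ q ∈ G, q.1 ≠ 0 ∧ ∃ u ∈ A, E.v u = 0 ∧ ∃ t : F.K, F.v t = 0 ∧ F.res t = gr (E.res u) ∧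
    p = q * (u, t)}

lemma theta0 (H : LiftHyp E F A G gr gv) : Theta E F A G gr gv (Theta0 A G gr) := by
  have hv1E : E.v (1 : E.K) = 0 := AddValuation.map_one _
  have hv1F : F.v (1 : F.K) = 0 := AddValuation.map_one _
  have hne : ∀ {V : VF.{u}} {u : V.K}, V.v u = 0 → u ≠ 0 := by
    rintro V u hu rfl
    rw [AddValuation.map_zero] at hu
    exact WithTop.top_ne_zero hu
  refine ⟨?_, ?_, ?_, ?_, ?_, ?_, ?_, ?_⟩
  · intro p hp hp0
    refine ⟨p, hp, hp0, 1, A.one_mem, hv1E, 1, hv1F, ?_, ?_⟩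
    · rw [E.res_one, F.res_one, H.r_one]
    · rw [show ((1, 1) : E.K × F.K) = 1 from rfl, mul_one]
  · rintro _ ⟨q, hq, hq0, u, hu, hu0, t, ht0, ht, rfl⟩ _ ⟨q', hq', hq0', u', hu', hu0', t', ht0',
      ht', rfl⟩
    refine ⟨q * q', G.mul_mem hq hq', mul_ne_zero hq0 hq0', u * u', A.mul_mem hu hu', ?_, t * t',
      ?_, ?_, ?_⟩
    · rw [AddValuation.map_mul, hu0, hu0', add_zero]
    · rw [AddValuation.map_mul, ht0, ht0', add_zero]
    · rw [F.res_mul _ _ ht0.ge ht0'.ge, E.res_mul _ _ hu0.ge hu0'.ge,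
        H.r_mul _ hu _ hu' hu0.ge hu0'.ge, ht, ht']
    · rw [mul_mul_mul_comm]; rfl
  · rintro _ ⟨q, hq, hq0, u, hu, hu0, t, ht0, ht, rfl⟩
    have hu1 := hne hu0
    have hi1 : E.v u⁻¹ = 0 := by rw [E.v_inv, hu0]; simp
    refine ⟨q⁻¹, H.Ginv _ hq, inv_ne_zero hq0, u⁻¹, A.inv_mem hu, hi1, t⁻¹, ?_, ?_, ?_⟩
    · rw [F.v_inv, ht0]; simp
    · rw [F.res_inv ht0, ht]
      refine inv_eq_of_mul_eq_one_right ?_
      rw [← H.r_mul _ hu _ (A.inv_mem hu) hu0.ge hi1.ge, ← E.res_mul _ _ hu0.ge hi1.ge,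
        mul_inv_cancel₀ hu1, E.res_one, H.r_one]
    · ext
      · exact mul_inv _ _
      · exact mul_inv _ _
  · rintro _ ⟨q, hq, hq0, u, hu, hu0, t, ht0, ht, rfl⟩
    exact A.mul_mem (H.GA q hq) hu
  · rintro _ ⟨q, hq, hq0, u, hu, hu0, t, ht0, ht, rfl⟩
    exact mul_ne_zero hq0 (hne hu0)
  · rintro _ ⟨q, hq, hq0, u, hu, hu0, t, ht0, ht, rfl⟩
    exact mul_ne_zero (fun h => hq0 ((H.G0 q hq).mpr h)) (hne ht0)
  · rintro _ ⟨q, hq, hq0, u, hu, hu0, t, ht0, ht, rfl⟩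
    have hq2 : q.2 ≠ 0 := fun h => hq0 ((H.G0 q hq).mpr h)
    change F.vG (q.2 * t) = gv (E.vG (q.1 * u))
    rw [F.vG_mul hq2 (hne ht0), E.vG_mul hq0 (hne hu0), (F.v_zero_iff (hne ht0)).mp ht0,
      (E.v_zero_iff (hne hu0)).mp hu0, add_zero, add_zero]
    exact H.Gv q hq hq0
  · rintro _ ⟨q, hq, hq0, u, hu, hu0, t, ht0, ht, rfl⟩ hv
    have hq2 : q.2 ≠ 0 := fun h => hq0 ((H.G0 q hq).mpr h)
    change E.vG (q.1 * u) = 0 at hv
    rw [E.vG_mul hq0 (hne hu0), (E.v_zero_iff (hne hu0)).mp hu0, add_zero] at hv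
    have hv1 : E.v q.1 = 0 := (E.v_zero_iff hq0).mpr hv
    have hv2 : F.v q.2 = 0 := by
      rw [F.v_zero_iff hq2, H.Gv q hq hq0, hv, H.gv_zero]
    change F.res (q.2 * t) = gr (E.res (q.1 * u))
    rw [F.res_mul _ _ hv2.ge ht0.ge, E.res_mul _ _ hv1.ge hu0.ge,
      H.r_mul _ (H.GA q hq) _ hu hv1.ge hu0.ge, H.Gr q hq, ht]

/-- the values of the graph -/
def valG (G : Subring (E.K × F.K)) (hinv : ∀ p ∈ G, p⁻¹ ∈ G) : AddSubgroup E.G where
  carrier := {γ | ∃ p ∈ G, p.1 ≠ 0 ∧ E.vG p.1 = γ}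
  zero_mem' := ⟨1, G.one_mem, one_ne_zero, E.vG_one⟩
  add_mem' := by
    rintro _ _ ⟨p, hp, hp0, rfl⟩ ⟨q, hq, hq0, rfl⟩
    exact ⟨p * q, G.mul_mem hp hq, mul_ne_zero hp0 hq0, E.vG_mul hp0 hq0⟩
  neg_mem' := by
    rintro _ ⟨p, hp, hp0, rfl⟩
    exact ⟨p⁻¹, hinv p hp, inv_ne_zero hp0, E.vG_inv hp0⟩

/-- The correspondence can be extended to finitely many elements. -/
lemma exists_theta (H : LiftHyp E F A G gr gv) (S : Finset E.K)
    (hS : ∀ x ∈ S, x ∈ A ∧ x ≠ 0) :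
    ∃ T, Theta E F A G gr gv T ∧ ∀ x ∈ S, ∃ y, (x, y) ∈ T := by
  classical
  obtain ⟨ΓG, hΓG⟩ : ∃ ΓG, ΓG = valG G H.Ginv := ⟨_, rfl⟩
  have hmemΓ : ∀ γ, γ ∈ ΓG ↔ ∃ p ∈ G, p.1 ≠ 0 ∧ E.vG p.1 = γ := by
    intro γ; rw [hΓG]; rfl
  -- the quotient
  let Q := E.G ⧸ ΓG
  let π : E.G →+ Q := QuotientAddGroup.mk' ΓG
  have hπ : ∀ γ, π γ = 0 ↔ γ ∈ ΓG := fun γ => QuotientAddGroup.eq_zero_iff γ
  have htf : Module.IsTorsionFree ℤ Q := by
    refine Module.IsTorsionFree.of_smul_eq_zero fun k m hkm => ?_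
    by_contra hcon
    push Not at hcon
    obtain ⟨γ, rfl⟩ := QuotientAddGroup.mk'_surjective ΓG m
    have h1 : k • (QuotientAddGroup.mk' ΓG) γ = π (k • γ) := (map_zsmul π k γ).symm
    rw [h1, hπ, hmemΓ] at hkm
    obtain ⟨p, hp, hp0, hpv⟩ := hkm
    obtain ⟨q, hq, hq0, hqv⟩ := H.pure p hp hp0 k hcon.1 γ hpv
    exact hcon.2 ((hπ γ).mpr ((hmemΓ γ).mpr ⟨q, hq, hq0, hqv⟩))
  -- units
  let un : S → Aˣ := fun x => Units.mk0 ⟨x.1, (hS x.1 x.2).1⟩ (by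
    intro h; exact (hS x.1 x.2).2 (congrArg Subtype.val h))
  let h₀ : (S →₀ ℤ) →ₗ[ℤ] Additive Aˣ :=
    Finsupp.linearCombination ℤ (fun x : S => Additive.ofMul (un x))
  let val : Additive Aˣ →ₗ[ℤ] Q := (π.comp (E.vHomA A)).toIntLinearMap
  let P : Submodule ℤ Q := LinearMap.range (val.comp h₀)
  have hPfin : Module.Finite ℤ P := inferInstance
  have hPtf : Module.IsTorsionFree ℤ P := inferInstance
  have hPfree : Module.Free ℤ P := inferInstance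
  obtain ⟨s₀, hs₀⟩ := Module.projective_lifting_property (val.comp h₀).rangeRestrict
    (LinearMap.id : P →ₗ[ℤ] P) (LinearMap.surjective_rangeRestrict _)
  let s : P →ₗ[ℤ] Additive Aˣ := h₀.comp s₀
  have hs : ∀ h : P, val (s h) = (h : Q) := by
    intro h
    have := congrArg (fun f => (f h : Q)) hs₀
    exact this
  -- elements of the field
  let a : P → E.K := fun h => (((Additive.toMul (s h) : Aˣ) : A) : E.K)
  have haA : ∀ h, a h ∈ A := fun h => ((Additive.toMul (s h) : Aˣ) : A).2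
  have ha0 : ∀ h, a h ≠ 0 := fun h h0 =>
    (Additive.toMul (s h) : Aˣ).ne_zero (Subtype.ext h0)
  have haadd : ∀ h h', a (h + h') = a h * a h' := by
    intro h h'; simp only [a, map_add]; rfl
  have hazero : a 0 = 1 := by simp only [a, map_zero]; rfl
  have haval : ∀ h, π (E.vG (a h)) = (h : Q) := fun h => hs h
  -- lift of the values
  let w : P →+ F.G :=
    { toFun := fun h => gv (E.vG (a h))
      map_zero' := by rw [hazero, E.vG_one, H.gv_zero]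
      map_add' := fun h h' => by
        rw [haadd, E.vG_mul (ha0 h) (ha0 h'), H.v_add _ (haA h) _ (haA h') (ha0 h) (ha0 h')] }
  obtain ⟨ψ, hψ⟩ := Module.projective_lifting_property (F.vHom.toIntLinearMap)
    (w.toIntLinearMap : P →ₗ[ℤ] F.G) (by
      intro g
      obtain ⟨x, hx0, hx⟩ := F.vG_surj g
      exact ⟨Additive.ofMul (Units.mk0 x hx0), hx⟩)
  let b : P → F.K := fun h => ((Additive.toMul (ψ h) : F.Kˣ) : F.K)
  have hb0 : ∀ h, b h ≠ 0 := fun h => (Additive.toMul (ψ h) : F.Kˣ).ne_zero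
  have hbadd : ∀ h h', b (h + h') = b h * b h' := by
    intro h h'; simp only [b, map_add]; rfl
  have hbzero : b 0 = 1 := by simp only [b, map_zero]; rfl
  have hbval : ∀ h, F.vG (b h) = gv (E.vG (a h)) := by
    intro h
    have := congrArg (fun f => f h) hψ
    exact this
  have haneg : ∀ h, a (-h) = (a h)⁻¹ := by
    intro h
    refine eq_inv_of_mul_eq_one_left ?_
    rw [← haadd, neg_add_cancel, hazero]
  have hbneg : ∀ h, b (-h) = (b h)⁻¹ := by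
    intro h
    refine eq_inv_of_mul_eq_one_left ?_
    rw [← hbadd, neg_add_cancel, hbzero]
  have H0 := theta0 H
  have hval0 : ∀ p ∈ Theta0 A G gr, E.vG p.1 ∈ ΓG := by
    rintro _ ⟨q, hq, hq0, u, hu, hu0, t, ht0, ht, rfl⟩
    have hu1 : u ≠ 0 := by
      rintro rfl
      rw [AddValuation.map_zero] at hu0
      exact WithTop.top_ne_zero hu0
    rw [hmemΓ]
    refine ⟨q, hq, hq0, ?_⟩
    change _ = E.vG (q.1 * u)
    rw [E.vG_mul hq0 hu1, (E.v_zero_iff hu1).mp hu0, add_zero]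
  let T : Set (E.K × F.K) := {p | ∃ q ∈ Theta0 A G gr, ∃ h : P, p = q * (a h, b h)}
  refine ⟨T, ⟨?_, ?_, ?_, ?_, ?_, ?_, ?_, ?_⟩, ?_⟩
  · intro p hp hp0
    refine ⟨p, H0.sub p hp hp0, 0, ?_⟩
    rw [hazero, hbzero, show ((1, 1) : E.K × F.K) = 1 from rfl, mul_one]
  · rintro _ ⟨q, hq, h, rfl⟩ _ ⟨q', hq', h', rfl⟩
    refine ⟨q * q', H0.mul _ hq _ hq', h + h', ?_⟩
    rw [mul_mul_mul_comm, haadd, hbadd]; rfl
  · rintro _ ⟨q, hq, h, rfl⟩
    refine ⟨q⁻¹, H0.inv _ hq, -h, ?_⟩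
    rw [haneg, hbneg]
    ext
    · exact mul_inv _ _
    · exact mul_inv _ _
  · rintro _ ⟨q, hq, h, rfl⟩
    exact A.mul_mem (H0.A q hq) (haA h)
  · rintro _ ⟨q, hq, h, rfl⟩
    exact mul_ne_zero (H0.ne1 q hq) (ha0 h)
  · rintro _ ⟨q, hq, h, rfl⟩
    exact mul_ne_zero (H0.ne2 q hq) (hb0 h)
  · rintro _ ⟨q, hq, h, rfl⟩
    change F.vG (q.2 * b h) = gv (E.vG (q.1 * a h))
    rw [F.vG_mul (H0.ne2 q hq) (hb0 h), E.vG_mul (H0.ne1 q hq) (ha0 h), H0.val q hq, hbval,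
      H.v_add _ (H0.A q hq) _ (haA h) (H0.ne1 q hq) (ha0 h)]
  · rintro _ ⟨q, hq, h, rfl⟩ hv
    change E.vG (q.1 * a h) = 0 at hv
    rw [E.vG_mul (H0.ne1 q hq) (ha0 h)] at hv
    have h1 : π (E.vG (a h)) = 0 := by
      rw [hπ]
      have h2 : E.vG (a h) = - E.vG q.1 := (neg_eq_of_add_eq_zero_right hv).symm
      rw [h2]
      exact ΓG.neg_mem (hval0 q hq)
    rw [haval] at h1
    have h3 : h = 0 := Subtype.ext h1
    subst h3
    rw [hazero, E.vG_one, add_zero] at hv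
    have h4 := H0.res q hq hv
    change F.res (q.2 * b 0) = gr (E.res (q.1 * a 0))
    rw [hazero, hbzero, mul_one, mul_one]
    exact h4
  · intro x hx
    have hxA := (hS x hx).1
    have hx0 := (hS x hx).2
    -- the class of the value of `x`
    let h : P := ⟨π (E.vG x), by
      refine ⟨Finsupp.single ⟨x, hx⟩ 1, ?_⟩
      simp only [LinearMap.comp_apply, h₀]
      rw [Finsupp.linearCombination_single, one_smul]
      rfl⟩
    have h1 : E.vG (x / a h) ∈ ΓG := by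
      rw [← hπ, div_eq_mul_inv, E.vG_mul hx0 (inv_ne_zero (ha0 h)), E.vG_inv (ha0 h), map_add,
        map_neg, haval, add_neg_cancel]
    rw [hmemΓ] at h1
    obtain ⟨q, hq, hq0, hqv⟩ := h1
    have hxa0 : x / a h ≠ 0 := div_ne_zero hx0 (ha0 h)
    let u : E.K := x / a h / q.1
    have hu0 : u ≠ 0 := div_ne_zero hxa0 hq0
    have huA : u ∈ A := A.div_mem (A.div_mem hxA (haA h)) (H.GA q hq)
    have huv : E.v u = 0 := by
      rw [E.v_zero_iff hu0]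
      simp only [u]
      rw [div_eq_mul_inv (x / a h), E.vG_mul hxa0 (inv_ne_zero hq0), E.vG_inv hq0, hqv,
        add_neg_cancel]
    obtain ⟨t, ht0, ht⟩ := F.res_surj (gr (E.res u))
    have htv : F.v t = 0 := by
      refine F.v_eq_zero_of_res ht0 ?_
      rw [ht]
      intro h0
      exact E.res_ne_zero huv (H.r_inj u huA huv.ge h0)
    refine ⟨q.2 * t * b h, q * (u, t), ⟨q, hq, hq0, u, huA, huv, t, htv, ht, rfl⟩, h, ?_⟩
    ext
    · change x = q.1 * u * a h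
      simp only [u]
      have := ha0 h
      field_simp
    · rfl

end

end Pool.Agent.Lib.MP_65f174_lc.AKE
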