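import Pool.Agent.Lib.MP_65f174_lc.AKE.Syn

set_option autoImplicit false

/-!
# Ultrapowers over `ℕ`: Łoś' theorem and saturation for one-sorted prenex formulas
-/

namespace Pool.Agent.Lib.MP_65f174_lc.AKE

universe u

open Filter

/-! ### The combinatorial core of countable saturation -/

theorem sat_seq (U : Ultrafilter ℕ) (hU : (U : Filter ℕ) ≤ atTop) {X : Type*}
    (C : ℕ → ℕ → X → Prop)
    (h : ∀ k, ∃ x : ℕ → X, ∀ j ≤ k, ∀ᶠ i in (U : Filter ℕ), C j i (x i)) :
    ∃ x : ℕ → X, ∀ j, ∀ᶠ i in (U : Filter ℕ), C j i (x i) := by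
  classical
  choose y hy using h
  have hS : ∀ k, ∀ᶠ i in (U : Filter ℕ), ∀ j ≤ k, C j i (y k i) := by
    intro k
    have h1 : ∀ᶠ i in (U : Filter ℕ), ∀ j ∈ Finset.range (k + 1), C j i (y k i) := by
      rw [Filter.eventually_all_finset]
      intro j hj
      exact hy k j (Nat.lt_succ_iff.mp (Finset.mem_range.mp hj))
    exact h1.mono fun i hi j hj => hi j (Finset.mem_range.mpr (Nat.lt_succ_of_le hj))
  let κ : ℕ → ℕ := fun i => Nat.findGreatest (fun k => ∀ j ≤ k, C j i (y k i)) i
  refine ⟨fun i => y (κ i) i, fun j => ?_⟩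
  have h2 : ∀ᶠ i in (U : Filter ℕ), j ≤ i := hU (eventually_ge_atTop j)
  filter_upwards [hS j, h2] with i hi hji
  have h3 : ∀ j' ≤ κ i, C j' i (y (κ i) i) :=
    Nat.findGreatest_spec (P := fun k => ∀ j ≤ k, C j i (y k i)) hji hi
  have h4 : j ≤ κ i := Nat.le_findGreatest hji hi
  exact h3 j h4

section

variable (U : Ultrafilter ℕ)

/-- germ of a sequence -/
abbrev Gm (M : Type u) : Type u := Germ (U : Filter ℕ) M

/-- A condition on families of elements of an ultrapower which is given coordinatewise. -/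
def Internal (M : Type u) (J : Type u) (C : (J → Gm U M) → Prop) : Prop :=
  ∃ C₀ : ℕ → (J → M) → Prop, ∀ y : J → ℕ → M,
    C (fun j => ((y j : ℕ → M) : Gm U M)) ↔ ∀ᶠ i in (U : Filter ℕ), C₀ i (fun j => y j i)

variable {U}

theorem exists_rep {M : Type u} {J : Type*} (y : J → Gm U M) :
    ∃ z : J → ℕ → M, y = fun j => ((z j : ℕ → M) : Gm U M) := by
  have : ∀ j, ∃ z : ℕ → M, y j = ((z : ℕ → M) : Gm U M) := by
    intro j
    refine Germ.inductionOn (y j) fun f => ?_
    exact ⟨f, rfl⟩
  choose z hz using this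
  exact ⟨z, funext hz⟩

/-- Countable saturation of ultrapowers for internal conditions. -/
theorem sat_internal (hU : (U : Filter ℕ) ≤ atTop) {M : Type u} {J : Type u} {I : Type*}
    [Countable I] (C : I → (J → Gm U M) → Prop) (hC : ∀ i, Internal U M J (C i))
    (h : ∀ s : Finset I, ∃ y, ∀ i ∈ s, C i y) : ∃ y, ∀ i, C i y := by
  classical
  rcases isEmpty_or_nonempty I with hI | hI
  · obtain ⟨y, _⟩ := h ∅
    exact ⟨y, fun i => hI.elim i⟩
  obtain ⟨ν, hν⟩ := exists_surjective_nat I
  choose C₀ hC₀ using hC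
  obtain ⟨x, hx⟩ := sat_seq U hU (X := J → M) (fun j i x => C₀ (ν j) i x) (by
    intro k
    obtain ⟨y, hy⟩ := h ((Finset.range (k + 1)).image ν)
    obtain ⟨z, rfl⟩ := exists_rep y
    refine ⟨fun i j => z j i, fun j hj => ?_⟩
    have h1 := hy (ν j) (Finset.mem_image_of_mem ν (Finset.mem_range.mpr (Nat.lt_succ_of_le hj)))
    exact (hC₀ (ν j) z).mp h1)
  refine ⟨fun j => ((fun i => x i j : ℕ → M) : Gm U M), fun i => ?_⟩
  obtain ⟨j, rfl⟩ := hν i
  exact (hC₀ (ν j) fun j i => x i j).mpr (hx j)

end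

/-! ### Łoś' theorem -/

/-- The quantifier-free semantics of an ultrapower is the coordinatewise one. -/
def IsUlt {U : Ultrafilter ℕ} {S : Syn} {M : Type u} (A₀ : Sem S M) (A : Sem S (Gm U M)) : Prop :=
  ∀ (m : ℕ) (θ : S.Fm m) (f : Fin m → ℕ → M),
    A.H m θ (fun i => ((f i : ℕ → M) : Gm U M)) ↔ ∀ᶠ j in (U : Filter ℕ), A₀.H m θ fun i => f i j

theorem cons_germ {U : Ultrafilter ℕ} {M : Type u} {m : ℕ} (g : ℕ → M) (f : Fin m → ℕ → M) :
    (Fin.cons ((g : ℕ → M) : Gm U M) (fun i => ((f i : ℕ → M) : Gm U M)) : Fin (m + 1) → Gm U M)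
      = fun i => (((Fin.cons g f : Fin (m + 1) → ℕ → M) i : ℕ → M) : Gm U M) := by
  funext i
  refine Fin.cases ?_ (fun i => ?_) i <;> simp

theorem cons_apply' {M : Type u} {m : ℕ} (g : ℕ → M) (f : Fin m → ℕ → M) (j : ℕ) :
    (fun i => (Fin.cons g f : Fin (m + 1) → ℕ → M) i j)
      = (Fin.cons (g j) (fun i => f i j) : Fin (m + 1) → M) := by
  funext i
  refine Fin.cases ?_ (fun i => ?_) i <;> simp

theorem los {U : Ultrafilter ℕ} {S : Syn} {M : Type u} [Nonempty M] {A₀ : Sem S M}
    {A : Sem S (Gm U M)} (hA : IsUlt A₀ A) {m : ℕ} (φ : Prenex S.Fm m) :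
    ∀ f : Fin m → ℕ → M, φ.Holds A.H (fun i => ((f i : ℕ → M) : Gm U M)) ↔
      ∀ᶠ j in (U : Filter ℕ), φ.Holds A₀.H fun i => f i j := by
  induction φ with
  | qf θ => intro f; exact hA _ θ f
  | @ex m φ ih =>
    intro f
    simp only [Prenex.Holds]
    constructor
    · rintro ⟨x, hx⟩
      induction x using Germ.inductionOn with
      | _ g =>
        rw [cons_germ, ih] at hx
        filter_upwards [hx] with j hj
        rw [cons_apply'] at hj
        exact ⟨g j, hj⟩
    · intro hx
      classical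
      let g : ℕ → M := fun j => if h : ∃ x, φ.Holds A₀.H (Fin.cons x fun i => f i j)
        then h.choose else Classical.arbitrary M
      refine ⟨((g : ℕ → M) : Gm U M), ?_⟩
      rw [cons_germ, ih]
      filter_upwards [hx] with j hj
      rw [cons_apply']
      simp only [g]
      rw [dif_pos hj]
      exact hj.choose_spec
  | @all m φ ih =>
    intro f
    simp only [Prenex.Holds]
    constructor
    · intro hx
      by_contra hcon
      rw [← Ultrafilter.eventually_not] at hcon
      simp only [not_forall] at hcon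
      classical
      let g : ℕ → M := fun j => if h : ∃ x, ¬ φ.Holds A₀.H (Fin.cons x fun i => f i j)
        then h.choose else Classical.arbitrary M
      have h1 := hx ((g : ℕ → M) : Gm U M)
      rw [cons_germ, ih] at h1
      obtain ⟨j, hj1, hj2⟩ := (h1.and hcon).exists
      rw [cons_apply'] at hj1
      simp only [g] at hj1
      rw [dif_pos hj2] at hj1
      exact hj2.choose_spec hj1
    · intro hx x
      induction x using Germ.inductionOn with
      | _ g =>
        rw [cons_germ, ih]
        filter_upwards [hx] with j hj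
        rw [cons_apply']
        exact hj (g j)

/-! ### Fragment-preserving relations -/

/-- All formulas of level `n` with an existential first block are preserved along `R`. -/
def Tn {S : Syn} {M N : Type u} (n : ℕ) (A : Sem S M) (B : Sem S N) (R : Set (M × N)) : Prop :=
  ∀ (m : ℕ) (φ : Prenex S.Fm m), Lev true n φ → ∀ p : Fin m → M × N, (∀ i, p i ∈ R) →
    φ.Holds A.H (fun i => (p i).1) → φ.Holds B.H (fun i => (p i).2)

section

variable {S : Syn} {M N : Type u} {n : ℕ} {A : Sem S M} {B : Sem S N} {R : Set (M × N)}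

theorem Tn.mono (h : Tn n A B R) {R' : Set (M × N)} (hR : R' ⊆ R) : Tn n A B R' :=
  fun m φ hφ p hp => h m φ hφ p fun i => hR (hp i)

theorem Tn.down (h : Tn (n + 1) A B R) : Tn n A B R :=
  fun m φ hφ p hp => h m φ hφ.succ p hp

theorem Tn.le (h : Tn n A B R) {k : ℕ} (hk : k ≤ n) : Tn k A B R :=
  fun m φ hφ p hp => h m φ (hφ.mono hk) p hp

theorem Tn.swap (h : Tn (n + 1) A B R) : Tn n B A {p | (p.2, p.1) ∈ R} := by
  intro m φ hφ p hp h1
  by_contra h2
  have h3 := h m (φ.neg S) (Lev.sw true n hφ.neg) (fun i => ((p i).2, (p i).1)) hp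
    ((Prenex.holds_neg A φ _).mpr h2)
  exact (Prenex.holds_neg B φ _).mp h3 h1

theorem Tn.qf_iff (h : Tn n A B R) {m : ℕ} (θ : S.Fm m) (p : Fin m → M × N)
    (hp : ∀ i, p i ∈ R) : A.H m θ (fun i => (p i).1) ↔ B.H m θ (fun i => (p i).2) := by
  constructor
  · intro h1
    exact h m (.qf θ) (Lev.qf _ _ _) p hp h1
  · intro h1
    by_contra h2
    have h3 := h m (.qf (S.not m θ)) (Lev.qf _ _ _) p hp ((A.not_iff _ _ _).mpr h2)
    exact (B.not_iff _ _ _).mp h3 h1

theorem Tn.eq_iff (h : Tn n A B R) {p q : M × N} (hp : p ∈ R) (hq : q ∈ R) :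
    p.1 = q.1 ↔ p.2 = q.2 := by
  have := h.qf_iff S.eq ![p, q] (by
    intro i
    refine Fin.cases ?_ (fun i => ?_) i
    · exact hp
    · have : i = 0 := Subsingleton.elim _ _
      subst this
      exact hq)
  rw [A.eq_iff, B.eq_iff] at this
  exact this

end

/-! ### Countability of the set of prenex formulas -/

theorem countable_prenex {F : ℕ → Type} (hF : ∀ m, Countable (F m)) (m : ℕ) :
    Countable (Prenex F m) := by
  have h : ∀ (k m : ℕ), {φ : Prenex F m | φ.len = k}.Countable := by
    intro k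
    induction k with
    | zero =>
      intro m
      have : {φ : Prenex F m | φ.len = 0} ⊆ Set.range (fun θ : F m => Prenex.qf θ) := by
        intro φ hφ
        cases φ with
        | qf θ => exact ⟨θ, rfl⟩
        | ex φ => simp [Prenex.len] at hφ
        | all φ => simp [Prenex.len] at hφ
      have hFm := hF m
      exact (Set.countable_range _).mono this
    | succ k ih =>
      intro m
      have : {φ : Prenex F m | φ.len = k + 1} ⊆
          (fun φ : Prenex F (m + 1) => Prenex.ex φ) '' {φ | φ.len = k} ∪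
          (fun φ : Prenex F (m + 1) => Prenex.all φ) '' {φ | φ.len = k} := by
        intro φ hφ
        cases φ with
        | qf θ => simp [Prenex.len] at hφ
        | ex φ => left; exact ⟨φ, by simpa [Prenex.len] using hφ, rfl⟩
        | all φ => right; exact ⟨φ, by simpa [Prenex.len] using hφ, rfl⟩
      exact (((ih (m + 1)).image _).union ((ih (m + 1)).image _)).mono this
  rw [← Set.countable_univ_iff]
  have : (Set.univ : Set (Prenex F m)) = ⋃ k, {φ : Prenex F m | φ.len = k} := by
    ext φ; simp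
  rw [this]
  exact Set.countable_iUnion fun k => h k m

/-! ### Saturation of ultrapowers with respect to a level -/

/-- A condition: a formula whose variables are named by elements of `V`. -/
structure Cnd (S : Syn) (n : ℕ) (V : Type u) where
  /-- number of variables -/
  m : ℕ
  /-- the formula -/
  φ : Prenex S.Fm m
  lev : Lev true n φ
  /-- names of the variables -/
  ι : Fin m → V

theorem countable_cnd (S : Syn) (n : ℕ) (V : Type u) [Countable V] : Countable (Cnd S n V) := by
  have : ∀ m, Countable (Prenex S.Fm m) := countable_prenex S.countable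
  let f : Cnd S n V → Σ m : ℕ, Prenex S.Fm m × (Fin m → V) := fun c => ⟨c.m, c.φ, c.ι⟩
  have hf : Function.Injective f := by
    rintro ⟨m, φ, h, ι⟩ ⟨m', φ', h', ι'⟩ hh
    simp only [f] at hh
    obtain ⟨rfl, h2⟩ := Sigma.mk.inj hh
    have h3 := eq_of_heq h2
    obtain ⟨rfl, rfl⟩ := Prod.mk.inj h3
    rfl
  exact hf.countable

/-- finitely many conditions amount to one -/
theorem exists_single (S : Syn) (n : ℕ) (V : Type u) (s : Finset (Cnd S n V)) :
    s.Nonempty → ∃ c : Cnd S n V, ∀ (M : Type u) (_ : Nonempty M) (A : Sem S M) (val : V → M),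
      c.φ.Holds A.H (val ∘ c.ι) ↔ ∀ d ∈ s, d.φ.Holds A.H (val ∘ d.ι) := by
  classical
  intro hs
  induction hs using Finset.Nonempty.cons_induction with
  | singleton a => exact ⟨a, fun M _ A val => by simp⟩
  | cons a s ha hs ih =>
    obtain ⟨c, hc⟩ := ih
    obtain ⟨χ, h1, h2⟩ := Lev.conj (a.lev.ren (a.m + c.m) (Fin.castAdd c.m))
      (c.lev.ren (a.m + c.m) (Fin.natAdd a.m))
    refine ⟨⟨a.m + c.m, χ, h1, Fin.append a.ι c.ι⟩, fun M hM A val => ?_⟩
    show χ.Holds A.H (val ∘ Fin.append a.ι c.ι) ↔ _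
    rw [h2 M hM A, Prenex.holds_ren, Prenex.holds_ren]
    have e1 : (val ∘ Fin.append a.ι c.ι) ∘ Fin.castAdd c.m = val ∘ a.ι := by
      funext i; simp
    have e2 : (val ∘ Fin.append a.ι c.ι) ∘ Fin.natAdd a.m = val ∘ c.ι := by
      funext i; simp
    rw [e1, e2, hc M hM A val]
    simp

/-- splitting the names of the variables -/
theorem exists_split {P Q : Type u} {m : ℕ} (ι : Fin m → P ⊕ Q) :
    ∃ (a b : ℕ) (α : Fin a → P) (σ : Fin b → Q) (τ : Fin m → Fin a ⊕ Fin b),
      Function.Injective σ ∧ ∀ i, ι i = Sum.map α σ (τ i) := by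
  classical
  let sP : Finset P := (Finset.univ.image ι).toLeft
  let sQ : Finset Q := (Finset.univ.image ι).toRight
  refine ⟨sP.card, sQ.card, fun i => (sP.equivFin.symm i : P), fun i => (sQ.equivFin.symm i : Q),
    fun i => ?_, ?_, ?_⟩
  · exact match h : ι i with
      | .inl p => .inl (sP.equivFin ⟨p, by
          simp only [sP, Finset.mem_toLeft, Finset.mem_image, Finset.mem_univ, true_and]
          exact ⟨i, h⟩⟩)
      | .inr q => .inr (sQ.equivFin ⟨q, by
          simp only [sQ, Finset.mem_toRight, Finset.mem_image, Finset.mem_univ, true_and]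
          exact ⟨i, h⟩⟩)
  · intro i j hij
    exact sQ.equivFin.symm.injective (Subtype.ext hij)
  · intro i
    dsimp only
    split
    · next p h => simp [h]
    · next q h => simp [h]

/-- **Saturation.** -/
theorem exists_extend {U : Ultrafilter ℕ} (hU : (U : Filter ℕ) ≤ atTop) {S : Syn} {n : ℕ}
    {M N₀ : Type u} [Nonempty M] [Nonempty N₀] {A : Sem S M} {B₀ : Sem S N₀}
    {B : Sem S (Gm U N₀)} (hB : IsUlt B₀ B) {R : Set (M × Gm U N₀)} (hR : R.Countable)
    (hT : Tn (n + 1) A B R) {X : Set M} (hX : X.Countable) :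
    ∃ R' : Set (M × Gm U N₀), R ⊆ R' ∧ R'.Countable ∧ Tn (n + 1) A B R' ∧
      ∀ x ∈ X, ∃ y, (x, y) ∈ R' := by
  classical
  have : Countable R := hR.to_subtype
  have : Countable X := hX.to_subtype
  have hNe : Nonempty (Gm U N₀) := ⟨((fun _ => Classical.arbitrary N₀ : ℕ → N₀) : Gm U N₀)⟩
  let V : Type u := R ⊕ X
  let vM : V → M := Sum.elim (fun r => r.1.1) (fun x => x.1)
  let vN : (X → Gm U N₀) → V → Gm U N₀ := fun y => Sum.elim (fun r => r.1.2) y
  have : Countable (Cnd S (n + 1) V) := countable_cnd S (n + 1) V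
  let I : Type u := {c : Cnd S (n + 1) V // c.φ.Holds A.H (vM ∘ c.ι)}
  obtain ⟨y, hy⟩ := sat_internal hU (I := I) (J := X) (M := N₀)
    (fun c y => c.1.φ.Holds B.H (vN y ∘ c.1.ι)) (by
      rintro ⟨c, hc⟩
      -- the condition is internal
      obtain ⟨ρ, hρ⟩ := exists_rep (fun r : R => r.1.2)
      refine ⟨fun i x => c.φ.Holds B₀.H ((Sum.elim (fun r => ρ r i) x : V → N₀) ∘ c.ι),
        fun z => ?_⟩
      have e : vN (fun j => ((z j : ℕ → N₀) : Gm U N₀)) ∘ c.ι
          = fun i => (((Sum.elim ρ z : V → ℕ → N₀) (c.ι i) : ℕ → N₀) : Gm U N₀) := by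
        funext i
        simp only [vN, Function.comp]
        rcases c.ι i with r | x
        · simp only [Sum.elim_inl]
          exact congrFun hρ r
        · simp only [Sum.elim_inr]
      show c.φ.Holds B.H (vN (fun j => ((z j : ℕ → N₀) : Gm U N₀)) ∘ c.ι) ↔ _
      rw [e, los hB]
      refine Filter.eventually_congr (Filter.Eventually.of_forall fun j => ?_)
      have e2 : (fun i => (Sum.elim ρ z : V → ℕ → N₀) (c.ι i) j)
          = (Sum.elim (fun r => ρ r j) (fun x => z x j) : V → N₀) ∘ c.ι := by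
        funext i
        simp only [Function.comp]
        rcases c.ι i with r | x <;> simp
      rw [e2]) (by
      intro s
      rcases s.eq_empty_or_nonempty with rfl | hs
      · exact ⟨fun _ => Classical.arbitrary _, by simp⟩
      obtain ⟨c, hc⟩ := exists_single S (n + 1) V (s.image Subtype.val) (hs.image _)
      have h1 : c.φ.Holds A.H (vM ∘ c.ι) := by
        rw [hc M inferInstance A vM]
        intro d hd
        obtain ⟨d', _, rfl⟩ := Finset.mem_image.mp hd
        exact d'.2
      obtain ⟨a, b, α, σ, τ, hσ, hτ⟩ := exists_split c.ι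
      -- rename into the context `a + b`
      let enc : Fin a ⊕ Fin b → Fin (a + b) := Sum.elim (fun i => ⟨i + b, by omega⟩)
        (fun j => ⟨j, by omega⟩)
      let χ : Prenex S.Fm (a + b) := c.φ.ren S (a + b) (enc ∘ τ)
      have h2 : (Prenex.exs b χ).Holds A.H (fun i => ((α i).1).1) := by
        rw [Prenex.holds_exs]
        let f : Fin (a + b) → M := fun i => if h : i.val < b then (σ ⟨i.val, h⟩).1 else
          (α ⟨i.val - b, by omega⟩).1.1
        have hf : ∀ w : Fin a ⊕ Fin b, f (enc w) = vM (Sum.map α σ w) := by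
          rintro (j | j)
          · have h3 : ¬ ((j : ℕ) + b < b) := by omega
            simp [f, enc, vM]
          · simp [f, enc, vM]
        refine ⟨f, fun i => ?_, ?_⟩
        · exact hf (.inl i)
        · simp only [χ]
          rw [Prenex.holds_ren]
          have e : f ∘ enc ∘ τ = vM ∘ c.ι := by
            funext i
            simp only [Function.comp]
            rw [hf, hτ i]
          rw [e]; exact h1
      have h4 := hT a (Prenex.exs b χ) ((c.lev.ren _ _).exs b) (fun i => (α i).1)
        (fun i => (α i).2) h2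
      rw [Prenex.holds_exs] at h4
      obtain ⟨e', h5, h6⟩ := h4
      let y : X → Gm U N₀ := fun x => if h : ∃ j, σ j = x then e' ⟨h.choose, by omega⟩
        else Classical.arbitrary _
      have hy : ∀ w : Fin a ⊕ Fin b, e' (enc w) = vN y (Sum.map α σ w) := by
        rintro (j | j)
        · exact h5 j
        · have h8 : ∃ j', σ j' = σ j := ⟨j, rfl⟩
          have h9 : h8.choose = j := hσ h8.choose_spec
          simp only [enc, vN, Sum.map_inr, Sum.elim_inr, y]
          rw [dif_pos h8]
          congr 2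
          rw [h9]
      refine ⟨y, fun d hd => ?_⟩
      have h7 : c.φ.Holds B.H (vN y ∘ c.ι) := by
        simp only [χ] at h6
        rw [Prenex.holds_ren] at h6
        have e : e' ∘ enc ∘ τ = vN y ∘ c.ι := by
          funext i
          simp only [Function.comp]
          rw [hy, hτ i]
        rw [← e]; exact h6
      rw [hc (Gm U N₀) inferInstance B] at h7
      exact h7 d.1 (Finset.mem_image_of_mem _ hd))
  refine ⟨R ∪ Set.range (fun x : X => (x.1, y x)), Set.subset_union_left,
    hR.union (Set.countable_range _), ?_, fun x hx => ⟨y ⟨x, hx⟩, Or.inr ⟨⟨x, hx⟩, rfl⟩⟩⟩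
  intro m φ hφ p hp h1
  have h2 : ∀ i, ∃ w : V, p i = (vM w, vN y w) := by
    intro i
    rcases hp i with h | ⟨x, hx⟩
    · exact ⟨.inl ⟨p i, h⟩, rfl⟩
    · exact ⟨.inr x, hx.symm⟩
  choose w hw using h2
  have h3 : (⟨m, φ, hφ, w⟩ : Cnd S (n + 1) V).φ.Holds A.H (vM ∘ w) := by
    have : (fun i => (p i).1) = vM ∘ w := by
      funext i; rw [hw i]; rfl
    rw [← this]; exact h1
  have h4 := hy ⟨⟨m, φ, hφ, w⟩, h3⟩
  have h5 : (fun i => (p i).2) = vN y ∘ w := by
    funext i; rw [hw i]; rfl
  rw [h5]; exact h4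

end Pool.Agent.Lib.MP_65f174_lc.AKE
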