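import Mathlib

set_option autoImplicit false

/-!
# Prenex formulas over a family of quantifier-free formulas, and standard quantifier patterns
-/

namespace Pool.Agent.Lib.MP_65f174_lc.AKE

universe u

/-- Prenex formulas; `F a` is the type of quantifier-free formulas in `a` free variables. The
variable `0` of `φ` is the one bound in `ex φ` and `all φ`. -/
inductive Prenex (F : ℕ → Type) : ℕ → Type
  | qf {a : ℕ} : F a → Prenex F a
  | ex {a : ℕ} : Prenex F (a + 1) → Prenex F a
  | all {a : ℕ} : Prenex F (a + 1) → Prenex F a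

/-- Truth of a prenex formula, given the truth of quantifier-free formulas. -/
def Prenex.Holds {F : ℕ → Type} {M : Type u} (h : (a : ℕ) → F a → (Fin a → M) → Prop) :
    {a : ℕ} → Prenex F a → (Fin a → M) → Prop
  | a, .qf φ, e => h a φ e
  | _, .ex φ, e => ∃ x : M, φ.Holds h (Fin.cons x e)
  | _, .all φ, e => ∀ x : M, φ.Holds h (Fin.cons x e)

/-- The quantifier word of a prenex formula, outermost first; `true` is `∃`, `false` is `∀`. -/
def Prenex.word {F : ℕ → Type} : {a : ℕ} → Prenex F a → List Bool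
  | _, .qf _ => []
  | _, .ex φ => true :: φ.word
  | _, .all φ => false :: φ.word

/-- The alternating block pattern with `n` blocks, the first of type `b`. -/
def alt : Bool → ℕ → List Bool
  | _, 0 => []
  | b, n + 1 => b :: alt (!b) n

/-- A quantifier word has a given block pattern (blocks may be empty). -/
def HasPattern : List Bool → List Bool → Prop
  | [], w => w = []
  | q :: qs, w => ∃ (k : ℕ) (w' : List Bool), w = List.replicate k q ++ w' ∧ HasPattern qs w'

theorem hasPattern_nil (p : List Bool) : HasPattern p [] := by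
  induction p with
  | nil => rfl
  | cons q qs ih => exact ⟨0, [], by simp, ih⟩

theorem hasPattern_cons_of {b : Bool} {p w : List Bool} (h : HasPattern (b :: p) w) :
    HasPattern (b :: p) (b :: w) := by
  obtain ⟨k, w', h1, h2⟩ := h
  exact ⟨k + 1, w', by rw [h1, List.replicate_succ]; rfl, h2⟩

theorem hasPattern_skip {b : Bool} {p w : List Bool} (h : HasPattern p w) :
    HasPattern (b :: p) w := ⟨0, w, by simp, h⟩

/-- peeling off an outermost quantifier of the right type -/
theorem hasPattern_peel {b : Bool} {n : ℕ} {w : List Bool}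
    (h : HasPattern (alt b (n + 1)) (b :: w)) : HasPattern (alt b (n + 1)) w := by
  obtain ⟨k, w', h1, h2⟩ := h
  cases k with
  | zero =>
    simp only [List.replicate_zero, List.nil_append] at h1
    -- the first letter belongs to a later block
    cases n with
    | zero =>
      rw [← h1] at h2
      exact absurd h2 (by simp [alt, HasPattern])
    | succ n =>
      rw [← h1] at h2
      obtain ⟨k', w'', h3, h4⟩ := h2
      cases k' with
      | zero =>
        simp only [List.replicate_zero, List.nil_append] at h3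
        rw [← h3, Bool.not_not] at h4
        cases n with
        | zero => exact absurd h4 (by simp [alt, HasPattern])
        | succ n =>
          have := hasPattern_peel h4
          refine hasPattern_skip (hasPattern_skip ?_)
          rw [Bool.not_not]
          exact this
      | succ k' =>
        rw [List.replicate_succ] at h3
        have h5 : b = !b := by
          have := congrArg List.head? h3
          simpa using this
        cases b <;> simp at h5
  | succ k =>
    rw [List.replicate_succ, List.cons_append] at h1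
    exact ⟨k, w', (List.cons.inj h1).2, h2⟩

/-- an outermost quantifier of the wrong type belongs to a later block -/
theorem hasPattern_switch {b : Bool} {n : ℕ} {w : List Bool}
    (h : HasPattern (alt b (n + 1)) ((!b) :: w)) : HasPattern (alt (!b) n) ((!b) :: w) := by
  obtain ⟨k, w', h1, h2⟩ := h
  cases k with
  | zero =>
    simp only [List.replicate_zero, List.nil_append] at h1
    rw [h1]; exact h2
  | succ k =>
    rw [List.replicate_succ] at h1
    have h5 : (!b) = b := by
      have := congrArg List.head? h1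
      simpa using this
    cases b <;> simp at h5

/-- Level of a prenex formula: at most `n` blocks, the first of type `b`. -/
inductive Lev {F : ℕ → Type} : Bool → ℕ → {a : ℕ} → Prenex F a → Prop
  | qf (b : Bool) (n : ℕ) {a : ℕ} (θ : F a) : Lev b n (.qf θ)
  | ex (n : ℕ) {a : ℕ} {φ : Prenex F (a + 1)} : Lev true (n + 1) φ → Lev true (n + 1) (.ex φ)
  | all (n : ℕ) {a : ℕ} {φ : Prenex F (a + 1)} : Lev false (n + 1) φ →
      Lev false (n + 1) (.all φ)
  | sw (b : Bool) (n : ℕ) {a : ℕ} {φ : Prenex F a} : Lev (!b) n φ → Lev b (n + 1) φ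

theorem hasPattern_of_lev {F : ℕ → Type} {b : Bool} {n a : ℕ} {φ : Prenex F a}
    (h : Lev b n φ) : HasPattern (alt b n) φ.word := by
  induction h with
  | qf b n θ => exact hasPattern_nil _
  | ex n _ ih => exact hasPattern_cons_of ih
  | all n _ ih => exact hasPattern_cons_of ih
  | sw b n _ ih => exact hasPattern_skip ih

theorem lev_of_hasPattern {F : ℕ → Type} (n : ℕ) : ∀ (b : Bool) {a : ℕ} (φ : Prenex F a),
    HasPattern (alt b n) φ.word → Lev b n φ := by
  induction n with
  | zero =>
    intro b a φ h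
    cases φ with
    | qf θ => exact Lev.qf _ _ _
    | ex φ => simp [alt, HasPattern, Prenex.word] at h
    | all φ => simp [alt, HasPattern, Prenex.word] at h
  | succ n ih =>
    intro b a φ h
    induction φ with
    | qf θ => exact Lev.qf _ _ _
    | ex φ ihφ =>
      cases b with
      | true => exact Lev.ex _ (ihφ (hasPattern_peel h))
      | false => exact Lev.sw _ _ (ih _ _ (hasPattern_switch h))
    | all φ ihφ =>
      cases b with
      | false => exact Lev.all _ (ihφ (hasPattern_peel h))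
      | true => exact Lev.sw _ _ (ih _ _ (hasPattern_switch h))

theorem lev_iff {F : ℕ → Type} {b : Bool} {n a : ℕ} {φ : Prenex F a} :
    Lev b n φ ↔ HasPattern (alt b n) φ.word :=
  ⟨hasPattern_of_lev, lev_of_hasPattern n b φ⟩

theorem Lev.succ {F : ℕ → Type} {b : Bool} {n a : ℕ} {φ : Prenex F a}
    (h : Lev b n φ) : Lev b (n + 1) φ := by
  induction h with
  | qf b n θ => exact Lev.qf _ _ _
  | ex n _ ih => exact Lev.ex _ ih
  | all n _ ih => exact Lev.all _ ih
  | sw b n _ ih => exact Lev.sw _ _ ih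

theorem Lev.mono {F : ℕ → Type} {b : Bool} {n m a : ℕ} {φ : Prenex F a}
    (h : Lev b n φ) (hnm : n ≤ m) : Lev b m φ := by
  induction hnm with
  | refl => exact h
  | step _ ih => exact ih.succ

/-! ### Syntax with boolean operations and renaming -/

/-- A family of quantifier-free formulas with the operations needed below. -/
structure Syn where
  /-- the formulas -/
  Fm : ℕ → Type
  countable : ∀ m, Countable (Fm m)
  /-- conjunction -/
  and : (m : ℕ) → Fm m → Fm m → Fm m
  /-- negation -/
  not : (m : ℕ) → Fm m → Fm m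
  /-- renaming of variables -/
  ren : (m m' : ℕ) → (Fin m → Fin m') → Fm m → Fm m'
  /-- equality of the two variables -/
  eq : Fm 2

/-- Semantics of the quantifier-free formulas in `M`. -/
structure Sem (S : Syn) (M : Type u) where
  /-- truth -/
  H : (m : ℕ) → S.Fm m → (Fin m → M) → Prop
  and_iff : ∀ (m : ℕ) (φ ψ : S.Fm m) (e : Fin m → M), H m (S.and m φ ψ) e ↔ H m φ e ∧ H m ψ e
  not_iff : ∀ (m : ℕ) (φ : S.Fm m) (e : Fin m → M), H m (S.not m φ) e ↔ ¬ H m φ e
  ren_iff : ∀ (m m' : ℕ) (ρ : Fin m → Fin m') (φ : S.Fm m) (e : Fin m' → M),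
    H m' (S.ren m m' ρ φ) e ↔ H m φ (e ∘ ρ)
  eq_iff : ∀ e : Fin 2 → M, H 2 S.eq e ↔ e 0 = e 1

/-- lifting a renaming under a binder -/
def liftρ {m m' : ℕ} (ρ : Fin m → Fin m') : Fin (m + 1) → Fin (m' + 1) :=
  Fin.cases 0 fun i => (ρ i).succ

theorem cons_liftρ {M : Type u} {m m' : ℕ} (ρ : Fin m → Fin m') (x : M) (e : Fin m' → M) :
    (Fin.cons x e : Fin (m' + 1) → M) ∘ liftρ ρ = Fin.cons x (e ∘ ρ) := by
  funext i
  refine Fin.cases ?_ (fun i => ?_) i
  · simp [liftρ]
  · simp [liftρ]

/-- Renaming of variables in prenex formulas. -/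
def Prenex.ren (S : Syn) : {m : ℕ} → (m' : ℕ) → (Fin m → Fin m') → Prenex S.Fm m →
    Prenex S.Fm m'
  | m, m', ρ, .qf θ => .qf (S.ren m m' ρ θ)
  | _, m', ρ, .ex φ => .ex (φ.ren S (m' + 1) (liftρ ρ))
  | _, m', ρ, .all φ => .all (φ.ren S (m' + 1) (liftρ ρ))

theorem Prenex.holds_ren {S : Syn} {M : Type u} (A : Sem S M) {m : ℕ} (φ : Prenex S.Fm m) :
    ∀ (m' : ℕ) (ρ : Fin m → Fin m') (e : Fin m' → M),
      (φ.ren S m' ρ).Holds A.H e ↔ φ.Holds A.H (e ∘ ρ) := by
  induction φ with
  | qf θ => intro m' ρ e; exact A.ren_iff _ _ ρ θ e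
  | ex φ ih =>
    intro m' ρ e
    simp only [Prenex.ren, Prenex.Holds]
    refine exists_congr fun x => ?_
    rw [ih, cons_liftρ]
  | all φ ih =>
    intro m' ρ e
    simp only [Prenex.ren, Prenex.Holds]
    refine forall_congr' fun x => ?_
    rw [ih, cons_liftρ]

theorem Lev.ren {S : Syn} {b : Bool} {n m : ℕ} {φ : Prenex S.Fm m} (h : Lev b n φ) :
    ∀ (m' : ℕ) (ρ : Fin m → Fin m'), Lev b n (φ.ren S m' ρ) := by
  induction h with
  | qf b n θ => intro m' ρ; exact Lev.qf _ _ _
  | ex n _ ih => intro m' ρ; exact Lev.ex _ (ih _ _)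
  | all n _ ih => intro m' ρ; exact Lev.all _ (ih _ _)
  | sw b n _ ih => intro m' ρ; exact Lev.sw _ _ (ih _ _)

/-- number of quantifiers -/
def Prenex.len {F : ℕ → Type} : {a : ℕ} → Prenex F a → ℕ
  | _, .qf _ => 0
  | _, .ex φ => φ.len + 1
  | _, .all φ => φ.len + 1

theorem Prenex.len_ren {S : Syn} {m : ℕ} (φ : Prenex S.Fm m) :
    ∀ (m' : ℕ) (ρ : Fin m → Fin m'), (φ.ren S m' ρ).len = φ.len := by
  induction φ with
  | qf θ => intro m' ρ; rfl
  | ex φ ih => intro m' ρ; simp [Prenex.ren, Prenex.len, ih]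
  | all φ ih => intro m' ρ; simp [Prenex.ren, Prenex.len, ih]

/-- Negation. -/
def Prenex.neg (S : Syn) : {m : ℕ} → Prenex S.Fm m → Prenex S.Fm m
  | m, .qf θ => .qf (S.not m θ)
  | _, .ex φ => .all (φ.neg S)
  | _, .all φ => .ex (φ.neg S)

theorem Prenex.holds_neg {S : Syn} {M : Type u} (A : Sem S M) {m : ℕ} (φ : Prenex S.Fm m) :
    ∀ e : Fin m → M, (φ.neg S).Holds A.H e ↔ ¬ φ.Holds A.H e := by
  induction φ with
  | qf θ => intro e; exact A.not_iff _ θ e
  | ex φ ih => intro e; simp only [Prenex.neg, Prenex.Holds, ih, not_exists]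
  | all φ ih => intro e; simp only [Prenex.neg, Prenex.Holds, ih, not_forall]

theorem Lev.neg {S : Syn} {b : Bool} {n m : ℕ} {φ : Prenex S.Fm m} (h : Lev b n φ) :
    Lev (!b) n (φ.neg S) := by
  induction h with
  | qf b n θ => exact Lev.qf _ _ _
  | ex n _ ih => exact Lev.all _ ih
  | all n _ ih => exact Lev.ex _ ih
  | sw b n _ ih => exact Lev.sw _ _ ih

/-! ### Conjunctions -/

theorem conj_qf {S : Syn} {b : Bool} {n a : ℕ} {φ : Prenex S.Fm a} (h : Lev b n φ) :
    ∀ θ : S.Fm a, ∃ χ : Prenex S.Fm a, Lev b n χ ∧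
      ∀ (M : Type u) (_ : Nonempty M) (A : Sem S M) (e : Fin a → M),
        χ.Holds A.H e ↔ A.H a θ e ∧ φ.Holds A.H e := by
  induction h with
  | qf b n θ' =>
    intro θ
    exact ⟨.qf (S.and _ θ θ'), Lev.qf _ _ _, fun M _ A e => A.and_iff _ θ θ' e⟩
  | @ex n a φ _ ih =>
    intro θ
    obtain ⟨χ, h1, h2⟩ := ih (S.ren a (a + 1) Fin.succ θ)
    refine ⟨.ex χ, Lev.ex _ h1, fun M hM A e => ?_⟩
    simp only [Prenex.Holds]
    have h3 : ∀ x : M, (Fin.cons x e : Fin (a + 1) → M) ∘ Fin.succ = e := fun x => by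
      funext i; simp
    constructor
    · rintro ⟨x, hx⟩
      rw [h2 M hM A, A.ren_iff, h3] at hx
      exact ⟨hx.1, x, hx.2⟩
    · rintro ⟨hθ, x, hx⟩
      refine ⟨x, ?_⟩
      rw [h2 M hM A, A.ren_iff, h3]
      exact ⟨hθ, hx⟩
  | @all n a φ _ ih =>
    intro θ
    obtain ⟨χ, h1, h2⟩ := ih (S.ren a (a + 1) Fin.succ θ)
    refine ⟨.all χ, Lev.all _ h1, fun M hM A e => ?_⟩
    simp only [Prenex.Holds]
    have h3 : ∀ x : M, (Fin.cons x e : Fin (a + 1) → M) ∘ Fin.succ = e := fun x => by
      funext i; simp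
    constructor
    · intro hx
      have h4 : ∀ x : M, A.H a θ e ∧ φ.Holds A.H (Fin.cons x e) := by
        intro x
        have := hx x
        rwa [h2 M hM A, A.ren_iff, h3] at this
      exact ⟨(h4 hM.some).1, fun x => (h4 x).2⟩
    · rintro ⟨hθ, hx⟩ x
      rw [h2 M hM A, A.ren_iff, h3]
      exact ⟨hθ, hx x⟩
  | sw b n _ ih =>
    intro θ
    obtain ⟨χ, h1, h2⟩ := ih θ
    exact ⟨χ, Lev.sw _ _ h1, h2⟩

/-- Prenex formulas of a given level are closed under conjunction, up to equivalence. -/
theorem exists_conj {S : Syn} (n : ℕ) : ∀ (N : ℕ) (b : Bool) {a : ℕ} (φ ψ : Prenex S.Fm a),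
    φ.len + ψ.len ≤ N → Lev b n φ → Lev b n ψ → ∃ χ : Prenex S.Fm a, Lev b n χ ∧
      ∀ (M : Type u) (_ : Nonempty M) (A : Sem S M) (e : Fin a → M),
        χ.Holds A.H e ↔ φ.Holds A.H e ∧ ψ.Holds A.H e := by
  induction n with
  | zero =>
    intro N b a φ ψ _ h1 h2
    cases h1 with
    | qf _ _ θ => exact conj_qf h2 θ
  | succ n ihn =>
    intro N
    induction N with
    | zero =>
      intro b a φ ψ hN h1 h2
      cases φ with
      | qf θ => exact conj_qf h2 θ
      | ex φ => simp [Prenex.len] at hN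
      | all φ => simp [Prenex.len] at hN
    | succ N ihN =>
      intro b a φ ψ hN h1 h2
      have h3 : ∀ {a : ℕ} {M : Type u} (x : M) (e : Fin a → M),
          (Fin.cons x e : Fin (a + 1) → M) ∘ Fin.succ = e := fun x e => by
        funext i; simp
      cases h1 with
      | qf _ _ θ => exact conj_qf h2 θ
      | @ex _ _ φ h1 =>
        obtain ⟨χ, h4, h5⟩ := ihN true φ (ψ.ren S (a + 1) Fin.succ) (by
          rw [Prenex.len_ren]; simp only [Prenex.len] at hN; omega) h1 (h2.ren _ _)
        refine ⟨.ex χ, Lev.ex _ h4, fun M hM A e => ?_⟩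
        simp only [Prenex.Holds]
        constructor
        · rintro ⟨x, hx⟩
          rw [h5 M hM A, Prenex.holds_ren, h3] at hx
          exact ⟨⟨x, hx.1⟩, hx.2⟩
        · rintro ⟨⟨x, hx⟩, hψ⟩
          refine ⟨x, ?_⟩
          rw [h5 M hM A, Prenex.holds_ren, h3]
          exact ⟨hx, hψ⟩
      | @all _ _ φ h1 =>
        obtain ⟨χ, h4, h5⟩ := ihN false φ (ψ.ren S (a + 1) Fin.succ) (by
          rw [Prenex.len_ren]; simp only [Prenex.len] at hN; omega) h1 (h2.ren _ _)
        refine ⟨.all χ, Lev.all _ h4, fun M hM A e => ?_⟩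
        simp only [Prenex.Holds]
        constructor
        · intro hx
          have h6 : ∀ x : M, φ.Holds A.H (Fin.cons x e) ∧ ψ.Holds A.H e := by
            intro x
            have := hx x
            rwa [h5 M hM A, Prenex.holds_ren, h3] at this
          exact ⟨fun x => (h6 x).1, (h6 hM.some).2⟩
        · rintro ⟨hx, hψ⟩ x
          rw [h5 M hM A, Prenex.holds_ren, h3]
          exact ⟨hx x, hψ⟩
      | sw _ _ h1' =>
        cases h2 with
        | qf _ _ θ =>
          obtain ⟨χ, h4, h5⟩ := conj_qf (Lev.sw b n h1') θ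
          exact ⟨χ, h4, fun M hM A e => by rw [h5 M hM A]; exact and_comm⟩
        | @ex _ _ ψ h2 =>
          obtain ⟨χ, h4, h5⟩ := ihN true (φ.ren S (a + 1) Fin.succ) ψ (by
            rw [Prenex.len_ren]; simp only [Prenex.len] at hN; omega)
            ((Lev.sw true n h1').ren _ _) h2
          refine ⟨.ex χ, Lev.ex _ h4, fun M hM A e => ?_⟩
          simp only [Prenex.Holds]
          constructor
          · rintro ⟨x, hx⟩
            rw [h5 M hM A, Prenex.holds_ren, h3] at hx
            exact ⟨hx.1, x, hx.2⟩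
          · rintro ⟨hψ, x, hx⟩
            refine ⟨x, ?_⟩
            rw [h5 M hM A, Prenex.holds_ren, h3]
            exact ⟨hψ, hx⟩
        | @all _ _ ψ h2 =>
          obtain ⟨χ, h4, h5⟩ := ihN false (φ.ren S (a + 1) Fin.succ) ψ (by
            rw [Prenex.len_ren]; simp only [Prenex.len] at hN; omega)
            ((Lev.sw false n h1').ren _ _) h2
          refine ⟨.all χ, Lev.all _ h4, fun M hM A e => ?_⟩
          simp only [Prenex.Holds]
          constructor
          · intro hx
            have h6 : ∀ x : M, φ.Holds A.H e ∧ ψ.Holds A.H (Fin.cons x e) := by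
              intro x
              have := hx x
              rwa [h5 M hM A, Prenex.holds_ren, h3] at this
            exact ⟨(h6 hM.some).1, fun x => (h6 x).2⟩
          · rintro ⟨hψ, hx⟩ x
            rw [h5 M hM A, Prenex.holds_ren, h3]
            exact ⟨hψ, hx x⟩
        | sw _ _ h2' =>
          obtain ⟨χ, h4, h5⟩ := ihn (φ.len + ψ.len) (!b) φ ψ le_rfl h1' h2'
          exact ⟨χ, Lev.sw _ _ h4, h5⟩

theorem Lev.conj {S : Syn} {b : Bool} {n a : ℕ} {φ ψ : Prenex S.Fm a} (h1 : Lev b n φ)
    (h2 : Lev b n ψ) : ∃ χ : Prenex S.Fm a, Lev b n χ ∧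
      ∀ (M : Type u) (_ : Nonempty M) (A : Sem S M) (e : Fin a → M),
        χ.Holds A.H e ↔ φ.Holds A.H e ∧ ψ.Holds A.H e :=
  exists_conj n _ b φ ψ le_rfl h1 h2

/-! ### Existential closure of a block of variables -/

/-- Quantify existentially the first `q` variables. -/
def Prenex.exs {F : ℕ → Type} {a : ℕ} : (q : ℕ) → Prenex F (a + q) → Prenex F a
  | 0, φ => φ
  | q + 1, φ => Prenex.exs q (.ex φ)

theorem Lev.exs {F : ℕ → Type} {a n : ℕ} (q : ℕ) : ∀ {φ : Prenex F (a + q)},
    Lev true (n + 1) φ → Lev true (n + 1) (Prenex.exs q φ) := by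
  induction q with
  | zero => intro φ h; exact h
  | succ q ih => intro φ h; exact ih (Lev.ex _ h)

theorem Prenex.holds_exs {F : ℕ → Type} {M : Type u} (h : (a : ℕ) → F a → (Fin a → M) → Prop)
    {a : ℕ} (q : ℕ) : ∀ (φ : Prenex F (a + q)) (e : Fin a → M),
      (Prenex.exs q φ).Holds h e ↔
        ∃ e' : Fin (a + q) → M, (∀ i : Fin a, e' ⟨i + q, by omega⟩ = e i) ∧ φ.Holds h e' := by
  induction q with
  | zero =>
    intro φ e
    constructor
    · intro h; exact ⟨e, fun i => rfl, h⟩
    · rintro ⟨e', h1, h2⟩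
      have : e' = e := funext fun i => h1 i
      rw [← this]; exact h2
  | succ q ih =>
    intro φ e
    simp only [Prenex.exs]
    rw [ih]
    constructor
    · rintro ⟨e', h1, x, hx⟩
      refine ⟨Fin.cons x e', fun i => ?_, hx⟩
      have : (⟨(i : ℕ) + (q + 1), by omega⟩ : Fin (a + (q + 1)))
          = Fin.succ (⟨i + q, by omega⟩ : Fin (a + q)) := by
        ext; simp; omega
      rw [this]
      exact h1 i
    · rintro ⟨e', h1, h2⟩
      refine ⟨fun i => e' i.succ, fun i => ?_, e' 0, ?_⟩
      · rw [← h1 i]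
        congr 1
      · have : (Fin.cons (e' 0) fun i => e' (Fin.succ i) : Fin (a + q + 1) → M) = e' := by
          funext i
          refine Fin.cases ?_ (fun i => ?_) i <;> simp
        rw [this]; exact h2

end Pool.Agent.Lib.MP_65f174_lc.AKE
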