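import Pool.Agent.Lib.MP_65f174_lc.Mg.G003

set_option autoImplicit false

/-!
# The transfer theorems
-/

namespace Pool.Agent.Lib.MP_65f174_lc.AKE

universe u

open Filter

/-! ### From ultrapowers to the fields themselves -/

section

variable {E₀ F₀ : VF.{u}} {n : ℕ}

/-- constants of the ultrapower -/
def kc (U : Ultrafilter ℕ) (F : VF.{u}) (x : F.K) : (F.ultra U).K := gK U (fun _ => x)

lemma vG_kc {U : Ultrafilter ℕ} {F : VF.{u}} {x : F.K} (hx : x ≠ 0) :
    (F.ultra U).vG (kc U F x) = gG U (fun _ => F.vG x) := by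
  refine (F.ultra U).vG_eq ?_
  unfold kc
  rw [v_gK, gT_coe, gT_eq]
  exact Filter.Eventually.of_forall fun _ => F.vG_spec hx

lemma kc_ne_zero {U : Ultrafilter ℕ} {F : VF.{u}} {x : F.K} (hx : x ≠ 0) : kc U F x ≠ 0 := by
  unfold kc
  rw [Ne, gK_zero, gK_eq, Filter.eventually_const]
  exact hx

/-- data of level `n` transfer formulas -/
theorem transfer_of_dat {U : Ultrafilter ℕ} (hU : (U : Filter ℕ) ≤ atTop) (hE : E₀.Hens)
    (hF : F₀.Hens) (cE : CharZero E₀.k) (cF : CharZero F₀.k) {m : ℕ} (e : Fin m → E₀.K)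
    (e' : Fin m → F₀.K)
    (ho : n % 2 = 1 → ∃ G, Dat n (E₀.ultra U) (F₀.ultra U) G ∧
      ∀ i, (kc U E₀ (e i), kc U F₀ (e' i)) ∈ G)
    (he : n % 2 = 0 → ∃ G, Dat n (F₀.ultra U) (E₀.ultra U) G ∧
      ∀ i, (kc U F₀ (e' i), kc U E₀ (e i)) ∈ G)
    (φ : ValPrenex m 0 0) (hφ : HasPattern (pattern n) φ.word)
    (h : φ.Holds E₀.v E₀.res e Fin.elim0 Fin.elim0) :
    φ.Holds F₀.v F₀.res e' Fin.elim0 Fin.elim0 := by
  rw [← ValPrenex.los_const (U := U)] at h ⊢
  have e1 : ∀ (X Y : Type u), (fun i => ((Fin.elim0 : Fin 0 → X × Y) i).1) = Fin.elim0 := by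
    intro X Y; funext i; exact i.elim0
  have e2 : ∀ (X Y : Type u), (fun i => ((Fin.elim0 : Fin 0 → X × Y) i).2) = Fin.elim0 := by
    intro X Y; funext i; exact i.elim0
  rcases Nat.mod_two_eq_zero_or_one n with hn | hn
  · rw [(pattern_eq n).2 hn] at hφ
    have hlev := vlev_of_hasPattern n false φ hφ
    obtain ⟨G, hG, hmem⟩ := he hn
    have := (bf hU hlev F₀ E₀ hF hE cF cE G hG (fun i => (kc U F₀ (e' i), kc U E₀ (e i))) hmem
      Fin.elim0 (fun i => i.elim0) Fin.elim0 (fun i => i.elim0)).2 rfl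
    rw [e1, e1, e2, e2] at this
    exact this h
  · rw [(pattern_eq n).1 hn] at hφ
    have hlev := vlev_of_hasPattern n true φ hφ
    obtain ⟨G, hG, hmem⟩ := ho hn
    have := (bf hU hlev E₀ F₀ hE hF cE cF G hG (fun i => (kc U E₀ (e i), kc U F₀ (e' i))) hmem
      Fin.elim0 (fun i => i.elim0) Fin.elim0 (fun i => i.elim0)).1 rfl
    rw [e1, e1, e2, e2] at this
    exact this h

lemma ring_tn_odd {U : Ultrafilter ℕ} (hn : n % 2 = 1) (hr : ringTh n E₀.k ⊆ ringTh n F₀.k) :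
    Tn n (ringSem (E₀.ultra U).k) (ringSem (F₀.ultra U).k) ∅ := by
  have := tn_odd (U := U) (S := ringSyn) (A₀ := ringSem E₀.k) (A := ringSem (E₀.ultra U).k)
    (B₀ := ringSem F₀.k) (B := ringSem (F₀.ultra U).k) isUlt_ring isUlt_ring hn
    (m := 0) (e := Fin.elim0) (e' := Fin.elim0) (fun _ h1 h2 => (hr ⟨h1, h2⟩).2)
  exact Tn.mono this (Set.empty_subset _)

lemma ring_tn_even {U : Ultrafilter ℕ} (hn : n % 2 = 0) (hr : ringTh n E₀.k ⊆ ringTh n F₀.k) :
    Tn n (ringSem (F₀.ultra U).k) (ringSem (E₀.ultra U).k) ∅ := by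
  have := tn_even (U := U) (S := ringSyn) (A₀ := ringSem E₀.k) (A := ringSem (E₀.ultra U).k)
    (B₀ := ringSem F₀.k) (B := ringSem (F₀.ultra U).k) isUlt_ring isUlt_ring hn
    (m := 0) (e := Fin.elim0) (e' := Fin.elim0) (fun _ h1 h2 => (hr ⟨h1, h2⟩).2)
  exact Tn.mono this (Set.empty_subset _)

lemma oag_tn_odd {U : Ultrafilter ℕ} (hn : n % 2 = 1) {m : ℕ} {g : Fin m → E₀.G}
    {g' : Fin m → F₀.G} (hv : oagTh n E₀.G g ⊆ oagTh n F₀.G g') :
    Tn n (oagSem (E₀.ultra U).G) (oagSem (F₀.ultra U).G)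
      (Set.range fun i => (gG U (fun _ => g i), gG U (fun _ => g' i))) :=
  tn_odd (U := U) (S := oagSyn) (A₀ := oagSem E₀.G) (A := oagSem (E₀.ultra U).G)
    (B₀ := oagSem F₀.G) (B := oagSem (F₀.ultra U).G) isUlt_oag isUlt_oag hn
    (m := m) (e := g) (e' := g') (fun _ h1 h2 => (hv ⟨h1, h2⟩).2)

lemma oag_tn_even {U : Ultrafilter ℕ} (hn : n % 2 = 0) {m : ℕ} {g : Fin m → E₀.G}
    {g' : Fin m → F₀.G} (hv : oagTh n E₀.G g ⊆ oagTh n F₀.G g') :
    Tn n (oagSem (F₀.ultra U).G) (oagSem (E₀.ultra U).G)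
      (Set.range fun i => (gG U (fun _ => g' i), gG U (fun _ => g i))) :=
  tn_even (U := U) (S := oagSyn) (A₀ := oagSem E₀.G) (A := oagSem (E₀.ultra U).G)
    (B₀ := oagSem F₀.G) (B := oagSem (F₀.ultra U).G) isUlt_oag isUlt_oag hn
    (m := m) (e := g) (e' := g') (fun _ h1 h2 => (hv ⟨h1, h2⟩).2)

/-- a residue field whose theory is contained in one of characteristic zero -/
lemma charZero_of_ringTh {k l : Type u} [Field k] [Field l] [CharZero l]
    (hr : ringTh n k ⊆ ringTh n l) : CharZero k := by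
  obtain ⟨p, hp⟩ := CharP.exists k
  by_cases hp0 : p = 0
  · subst hp0
    exact CharP.charP_to_charZero k
  exfalso
  let tm : ℕ → RingTm 0 := fun m => Nat.rec RingTm.zero (fun _ t => RingTm.add t RingTm.one) m
  have htm : ∀ (R : Type u) (_ : CommRing R) (m : ℕ) (e : Fin 0 → R),
      (tm m).eval e = (m : R) := by
    intro R _ m e
    induction m with
    | zero => simp [tm, RingTm.eval]
    | succ m ih =>
      have : tm (m + 1) = RingTm.add (tm m) RingTm.one := rfl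
      rw [this]
      simp only [RingTm.eval]
      rw [ih]
      push_cast
      rfl
  have h1 : (Prenex.qf (RingQF.eq (tm p) RingTm.zero) : Prenex RingQF 0) ∈ ringTh n k := by
    refine ⟨hasPattern_nil _, ?_⟩
    change (tm p).eval _ = (0 : k)
    rw [htm]
    exact CharP.cast_eq_zero k p
  obtain ⟨_, h2⟩ := hr h1
  change (tm p).eval _ = (0 : l) at h2
  rw [htm] at h2
  exact hp0 (Nat.cast_eq_zero.mp h2)

/-- **Transfer without constants.** -/
theorem transfer (hn : 1 ≤ n) (hE : E₀.Hens) (hF : F₀.Hens) (cF : CharZero F₀.k)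
    (hr : ringTh n E₀.k ⊆ ringTh n F₀.k)
    (hv : oagTh n E₀.G Fin.elim0 ⊆ oagTh n F₀.G Fin.elim0)
    (φ : ValPrenex 0 0 0) (hφ : HasPattern (pattern n) φ.word)
    (h : φ.Holds E₀.v E₀.res Fin.elim0 Fin.elim0 Fin.elim0) :
    φ.Holds F₀.v F₀.res Fin.elim0 Fin.elim0 Fin.elim0 := by
  have cE : CharZero E₀.k := charZero_of_ringTh hr
  obtain ⟨k, rfl⟩ : ∃ k, n = k + 1 := ⟨n - 1, by omega⟩
  have hU := Nat.hyperfilter_le_atTop
  refine transfer_of_dat hU hE hF cE cF Fin.elim0 Fin.elim0 (fun ho => ?_) (fun he => ?_) φ hφ h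
  · obtain ⟨G, hG⟩ := dat_rat hU (ultra_charZero cE) (ultra_charZero cF) (ring_tn_odd ho hr)
      (Tn.mono (oag_tn_odd ho hv) (Set.empty_subset _))
    exact ⟨G, hG, fun i => i.elim0⟩
  · obtain ⟨G, hG⟩ := dat_rat hU (ultra_charZero cF) (ultra_charZero cE) (ring_tn_even he hr)
      (Tn.mono (oag_tn_even he hv) (Set.empty_subset _))
    exact ⟨G, hG, fun i => i.elim0⟩

lemma kc_min {U : Ultrafilter ℕ} {F : VF.{u}} {π : F.K} (h0 : π ≠ 0)
    (hmin : ∀ δ : F.G, 0 < δ → F.vG π ≤ δ) :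
    ∀ δ : (F.ultra U).G, 0 < δ → (F.ultra U).vG (kc U F π) ≤ δ := by
  intro δ hδ
  obtain ⟨δ, rfl⟩ := gG_surj δ
  rw [vG_kc h0]
  rw [gG_zero, gG_lt] at hδ
  rw [← not_lt, gG_lt, ← Ultrafilter.eventually_not]
  filter_upwards [hδ] with i hi
  exact not_lt.mpr (hmin _ hi)

lemma kc_pos {U : Ultrafilter ℕ} {F : VF.{u}} {π : F.K} (h0 : π ≠ 0)
    (hpos : 0 < F.vG π) : 0 < (F.ultra U).vG (kc U F π) := by
  rw [vG_kc h0, gG_zero, gG_lt]
  exact Filter.Eventually.of_forall fun _ => hpos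

/-- **Transfer with a uniformizer as constant.** -/
theorem transfer_unif (hn : 1 ≤ n) (hE : E₀.Hens) (hF : F₀.Hens) (cF : CharZero F₀.k)
    (hr : ringTh n E₀.k ⊆ ringTh n F₀.k) {π : E₀.K} {π' : F₀.K} (h0 : π ≠ 0) (h0' : π' ≠ 0)
    (hpos : 0 < E₀.vG π) (hpos' : 0 < F₀.vG π') (hmin : ∀ δ : E₀.G, 0 < δ → E₀.vG π ≤ δ)
    (hmin' : ∀ δ : F₀.G, 0 < δ → F₀.vG π' ≤ δ)
    (hv : oagTh n E₀.G ![E₀.vG π] ⊆ oagTh n F₀.G ![F₀.vG π'])
    (φ : ValPrenex 1 0 0) (hφ : HasPattern (pattern n) φ.word)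
    (h : φ.Holds E₀.v E₀.res ![π] Fin.elim0 Fin.elim0) :
    φ.Holds F₀.v F₀.res ![π'] Fin.elim0 Fin.elim0 := by
  have cE : CharZero E₀.k := charZero_of_ringTh hr
  obtain ⟨k, rfl⟩ : ∃ k, n = k + 1 := ⟨n - 1, by omega⟩
  have hU := Nat.hyperfilter_le_atTop
  refine transfer_of_dat hU hE hF cE cF ![π] ![π'] (fun ho => ?_) (fun he => ?_) φ hφ h
  · obtain ⟨G, hG, hmem⟩ := dat_unif hU (ultra_charZero cE) (ultra_charZero cF)
      (kc_ne_zero h0) (kc_ne_zero h0') (kc_pos h0 hpos) (kc_pos h0' hpos') (kc_min h0 hmin)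
      (ring_tn_odd ho hr)
      (Tn.mono (oag_tn_odd ho hv) (by
        rintro _ rfl
        refine ⟨0, ?_⟩
        rw [vG_kc h0, vG_kc h0']
        rfl))
    refine ⟨G, hG, fun i => ?_⟩
    fin_cases i
    exact hmem
  · obtain ⟨G, hG, hmem⟩ := dat_unif hU (ultra_charZero cF) (ultra_charZero cE)
      (kc_ne_zero h0') (kc_ne_zero h0) (kc_pos h0' hpos') (kc_pos h0 hpos) (kc_min h0' hmin')
      (ring_tn_even he hr)
      (Tn.mono (oag_tn_even he hv) (by
        rintro _ rfl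
        refine ⟨0, ?_⟩
        rw [vG_kc h0, vG_kc h0']
        rfl))
    refine ⟨G, hG, fun i => ?_⟩
    fin_cases i
    exact hmem

end

/-! ### Concrete valued fields -/

namespace ValuedField

variable (F : ValuedField.{u})

lemma res_of_mem {x : F.K} (h : 0 ≤ F.v x) :
    F.res x = IsLocalRing.residue F.ring ⟨x, h⟩ := by
  unfold ValuedField.res
  exact dif_pos h

lemma isUnit_iff (x : F.ring) : IsUnit x ↔ F.v x.1 = 0 := by
  constructor
  · intro h
    obtain ⟨y, hy⟩ := isUnit_iff_exists_inv.mp h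
    have h1 : F.v x.1 + F.v y.1 = 0 := by
      rw [← AddValuation.map_mul]
      have : x.1 * y.1 = 1 := congrArg Subtype.val hy
      rw [this, AddValuation.map_one]
    refine le_antisymm ?_ x.2
    rw [← h1]
    exact le_add_of_nonneg_right y.2
  · intro h
    have hx0 : x.1 ≠ 0 := by
      intro h0
      rw [h0, AddValuation.map_zero] at h
      exact WithTop.top_ne_zero h
    have hi : F.v (x.1)⁻¹ = 0 := by
      rw [AddValuation.map_inv, h]; simp
    refine isUnit_iff_exists_inv.mpr ⟨⟨(x.1)⁻¹, hi.ge⟩, ?_⟩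
    exact Subtype.ext (mul_inv_cancel₀ hx0)

/-- a valued field with its residue field -/
noncomputable def toVF : VF.{u} where
  K := F.K
  k := F.Res
  G := F.G
  v := F.v
  surj := F.surj
  res := F.res
  res_add := by
    intro x y hx hy
    have hxy : 0 ≤ F.v (x + y) := AddValuation.map_le_add _ hx hy
    rw [F.res_of_mem hx, F.res_of_mem hy, F.res_of_mem hxy, ← map_add]
    rfl
  res_mul := by
    intro x y hx hy
    have hxy : 0 ≤ F.v (x * y) := by
      rw [AddValuation.map_mul]; exact add_nonneg hx hy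
    rw [F.res_of_mem hx, F.res_of_mem hy, F.res_of_mem hxy, ← map_mul]
    rfl
  res_one := by
    have h1 : 0 ≤ F.v (1 : F.K) := by rw [AddValuation.map_one]
    rw [F.res_of_mem h1]
    exact map_one (IsLocalRing.residue F.ring)
  res_zero_iff := by
    intro x hx
    rw [F.res_of_mem hx, IsLocalRing.residue_eq_zero_iff, IsLocalRing.mem_maximalIdeal,
      mem_nonunits_iff, F.isUnit_iff]
    exact ⟨fun h => lt_of_le_of_ne hx (Ne.symm h), fun h => h.ne'⟩
  res_out := by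
    intro x hx
    unfold ValuedField.res
    exact dif_neg (not_le.mpr hx)
  res_surj := by
    intro r
    obtain ⟨x, rfl⟩ := IsLocalRing.residue_surjective r
    exact ⟨x.1, x.2, F.res_of_mem x.2⟩

open Polynomial in
lemma toVF_hens (h : HenselianLocalRing F.ring) : F.toVF.Hens := by
  intro p hp hc x hx h0 h1
  change F.K[X] at p
  change F.K at x
  change 0 ≤ F.v x at hx
  change 0 < F.v (p.eval x) at h0
  change F.v (p.derivative.eval x) = 0 at h1
  have hl : p ∈ lifts (F.ring.subtype) := by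
    rw [lifts_iff_coeff_lifts]
    intro i
    exact ⟨⟨p.coeff i, hc i⟩, rfl⟩
  obtain ⟨q, hq1, _, hq3⟩ := lifts_and_degree_eq_and_monic hl hp
  have hev : ∀ a : F.ring, ((q.eval a : F.ring) : F.K) = p.eval (a : F.K) := by
    intro a
    rw [← hq1, eval_map]
    exact (eval₂_at_apply F.ring.subtype a).symm
  have hev' : ∀ a : F.ring, ((q.derivative.eval a : F.ring) : F.K) = p.derivative.eval (a : F.K) := by
    intro a
    rw [← hq1, derivative_map, eval_map]
    exact (eval₂_at_apply F.ring.subtype a).symm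
  obtain ⟨a, ha1, ha2⟩ := h.is_henselian q hq3 ⟨x, hx⟩ (by
      rw [IsLocalRing.mem_maximalIdeal, mem_nonunits_iff, F.isUnit_iff, hev]
      exact h0.ne') (by
      rw [F.isUnit_iff, hev']
      exact h1)
  have e1 : p.eval (a : F.K) = 0 := by
    rw [← hev a]
    have : q.eval a = 0 := ha1
    rw [this]
    rfl
  have e2 : 0 < F.v ((a : F.K) - x) := by
    rw [IsLocalRing.mem_maximalIdeal, mem_nonunits_iff, F.isUnit_iff] at ha2
    have h3 : 0 ≤ F.v ((a : F.K) - x) :=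
      AddValuation.map_le_sub _ a.2 hx
    exact lt_of_le_of_ne h3 (Ne.symm ha2)
  exact ⟨a.1, e1, e2⟩

end ValuedField

end Pool.Agent.Lib.MP_65f174_lc.AKE
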